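import Pool.Agent.helper7.Wr.Shift

set_option autoImplicit false

/-!
# Permuted direct sums in classes of groups with inheritance properties
-/

namespace Pool.Agent.helper7.Wr

open Pool.Agent.helper16.FJ

/-- dependent finite products -/
theorem Inherit_pi {P : ∀ (G : Type) [Group G], Prop} (hP : Inherit P) (X : Type) [Finite X] :
    ∀ (T : X → Type) [∀ x, Group (T x)], (∀ x, P (T x)) → P (∀ x, T x) := by
  classical
  refine Finite.induction_empty_option
    (P := fun X => ∀ (T : X → Type) [∀ x, Group (T x)], (∀ x, P (T x)) → P (∀ x, T x)) ?_ ?_ ?_ X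
  · intro α β e h T _ hT
    refine hP.of_injective (G := ∀ a : α, T (e a))
      { toFun := fun f => fun a => f (e a), map_one' := rfl, map_mul' := fun _ _ => rfl } ?_
      (h (fun a => T (e a)) (fun a => hT (e a)))
    intro f g hfg
    funext b
    obtain ⟨a, rfl⟩ := e.surjective b
    exact congrFun hfg a
  · intro T _ _
    have : Subsingleton (∀ x : PEmpty, T x) := ⟨fun f g => funext fun x => x.elim⟩
    exact hP.trivial_group _
  · intro α _ h T _ hT
    refine hP.of_injective (G := T none × (∀ a : α, T (some a)))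
      { toFun := fun f => (f none, fun a => f (some a)), map_one' := rfl,
        map_mul' := fun _ _ => rfl } ?_ (hP.prod _ _ (hT none) (h _ (fun a => hT (some a))))
    intro f g hfg
    funext b
    simp only [MonoidHom.coe_mk, OneHom.coe_mk, Prod.mk.injEq] at hfg
    cases b with
    | none => exact hfg.1
    | some a => exact congrFun hfg.2 a

instance : Group.ResiduallyFinite (Multiplicative ℤ) := by
  rw [Group.residuallyFinite_iff_forall_finiteIndex]
  intro g hg
  obtain ⟨n, rfl⟩ := Multiplicative.ofAdd.surjective g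
  by_contra hn
  have hn0 : n ≠ 0 := fun h => hn (by rw [h]; rfl)
  -- the subgroup of multiples of `2 n`
  have h1 := @hg (AddSubgroup.toSubgroup (AddSubgroup.zmultiples (2 * n))) (by
    refine ⟨?_⟩
    have h2 : (AddSubgroup.zmultiples (2 * n)).index ≠ 0 := by
      rw [Int.index_zmultiples]
      simpa using hn0
    exact h2)
  have h3 : n ∈ AddSubgroup.zmultiples (2 * n) := h1
  rw [Int.mem_zmultiples_iff] at h3
  obtain ⟨k, hk⟩ := h3
  have h4 : n * (2 * k - 1) = 0 := by linarith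
  rcases mul_eq_zero.1 h4 with h5 | h5
  · exact hn0 h5
  · omega

variable {W I : Type} [Group W] [MulAction W I]

theorem finiteIndex_aux {K H : Subgroup W} {t : W} (ht : t ∈ H) (m : ℕ) (hm : 0 < m)
    (htm : t ^ m ∈ K) (hdec : ∀ x ∈ H, ∃ k : ℤ, t ^ (-k) * x ∈ K) :
    (K.subgroupOf H).FiniteIndex := by
  have hfin : Finite (H ⧸ K.subgroupOf H) := by
    refine Finite.of_surjective
      (fun r : Fin m => ((⟨t ^ (r : ℕ), pow_mem ht _⟩ : H) : H ⧸ K.subgroupOf H)) ?_
    intro y
    induction y using QuotientGroup.induction_on with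
    | H x =>
      obtain ⟨k, hk⟩ := hdec x x.2
      have hmz : (0 : ℤ) < m := by exact_mod_cast hm
      have hr0 := Int.emod_nonneg k (ne_of_gt hmz)
      have hr1 := Int.emod_lt_of_pos k hmz
      obtain ⟨r, hr⟩ := Int.eq_ofNat_of_zero_le hr0
      refine ⟨⟨r, by omega⟩, ?_⟩
      rw [QuotientGroup.eq, Subgroup.mem_subgroupOf]
      show (t ^ r)⁻¹ * (x : W) ∈ K
      have hkq : k = m * (k / m) + r := by
        rw [← hr]; exact (Int.mul_ediv_add_emod k m).symm
      have h1 : (t ^ r)⁻¹ * (x : W) = (t ^ m) ^ (k / m) * (t ^ (-k) * x) := by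
        have h2 : (t ^ m) ^ (k / m) * (t ^ (-k) * (x : W)) = t ^ ((m : ℤ) * (k / m) + -k) * x := by
          rw [zpow_add, zpow_mul, zpow_natCast, mul_assoc]
        rw [h2]
        have h3 : (m : ℤ) * (k / m) + -k = -(r : ℤ) := by omega
        rw [h3, zpow_neg, zpow_natCast]
      rw [h1]
      exact mul_mem (zpow_mem htm _) hk
  exact Subgroup.finiteIndex_of_finite_quotient

namespace Permuted

variable {P : ∀ (G : Type) [Group G], Prop} (hP : Inherit P)
variable {A : I → Subgroup W} (hA : Permuted A)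
variable {Q : Type} [Group Q] (hQ : P Q) (f : W →* Q) (hf : f.ker = ⨆ i, A i)
variable (hE : ∀ i, ∃ (E : Type) (_ : Group E) (ρ : MulAction.stabilizer W i →* E), P E ∧
  ∀ x, ρ x = 1 → (x : W) ∈ oth A i)

include hP hA hE

theorem A_mem (i : I) : P (A i) := by
  obtain ⟨E, _, ρ, hPE, hρ⟩ := hE i
  have hle : A i ≤ MulAction.stabilizer W i := fun a ha => hA.triv i a ha i
  refine hP.of_injective (ρ.comp (Subgroup.inclusion hle)) ?_ hPE
  rw [injective_iff_map_eq_one]
  intro a ha
  apply Subtype.ext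
  exact hA.indep i _ a.2 (hρ _ ha)

include hQ hf

theorem closure_mem (t : W) (ht : ∀ k : ℤ, t ^ k ∈ (⨆ i, A i : Subgroup W) → k = 0)
    (J : Finset I) (hJ : ∀ j ∈ J, t • j = j ∨ ∀ k : ℤ, t ^ k • j = j → k = 0) :
    P (Subgroup.closure ((⋃ j ∈ J, (A j : Set W)) ∪ {t})) := by
  classical
  set H := Subgroup.closure ((⋃ j ∈ J, (A j : Set W)) ∪ {t}) with hH
  -- the indices which occur
  let M : Subgroup W := ⨆ i : {i : I // ∃ l : ℤ, ∃ j ∈ J, t ^ l • j = i}, A i.1
  have hMN : M ≤ ⨆ i, A i := iSup_le (fun i => le_iSup A i.1)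
  have hMt : ∀ k : ℤ, ∀ x ∈ M, t ^ k * x * (t ^ k)⁻¹ ∈ M := by
    intro k
    have h1 : M ≤ M.comap (MulAut.conj (t ^ k)).toMonoidHom := by
      refine iSup_le ?_
      rintro ⟨i, l, j, hj, rfl⟩ a ha
      rw [Subgroup.mem_comap]
      refine (le_iSup (fun i : {i : I // ∃ l : ℤ, ∃ j ∈ J, t ^ l • j = i} => A i.1)
        ⟨t ^ k • t ^ l • j, k + l, j, hj, by rw [zpow_add, mul_smul]⟩) (hA.conj (t ^ k) _ a ha)
    exact fun x hx => h1 hx
  have hdec : ∀ x ∈ H, ∃ k : ℤ, x * t ^ (-k) ∈ M := by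
    intro x hx
    refine Subgroup.closure_induction (p := fun x _ => ∃ k : ℤ, x * t ^ (-k) ∈ M) ?_ ?_ ?_ ?_ hx
    · intro x hx
      rcases hx with hx | hx
      · rw [Set.mem_iUnion₂] at hx
        obtain ⟨j, hj, hx⟩ := hx
        refine ⟨0, ?_⟩
        rw [neg_zero, zpow_zero, mul_one]
        exact (le_iSup (fun i : {i : I // ∃ l : ℤ, ∃ j ∈ J, t ^ l • j = i} => A i.1)
          ⟨j, 0, j, hj, by simp⟩) hx
      · rw [Set.mem_singleton_iff] at hx
        subst hx
        exact ⟨1, by simp⟩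
    · exact ⟨0, by simp⟩
    · rintro v w _ _ ⟨k, hk⟩ ⟨l, hl⟩
      refine ⟨k + l, ?_⟩
      have h1 := mul_mem hk (hMt k _ hl)
      have h2 : v * t ^ (-k) * (t ^ k * (w * t ^ (-l)) * (t ^ k)⁻¹) = v * w * t ^ (-(k + l)) := by
        group
      rwa [h2] at h1
    · rintro v _ ⟨k, hk⟩
      refine ⟨-k, ?_⟩
      have h1 := hMt (-k) _ (inv_mem hk)
      have h2 : t ^ (-k) * (v * t ^ (-k))⁻¹ * (t ^ (-k))⁻¹ = v⁻¹ * t ^ (- -k) := by
        group
      rwa [h2] at h1
  have hHV : H ≤ hA.VT t := fun x hx => by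
    obtain ⟨k, hk⟩ := hdec x hx
    exact ⟨k, hMN hk⟩
  -- the homomorphisms
  have hT : ∀ j : J, ∃ (T : Type) (_ : Group T) (φ : H →* T), P T ∧
      ∀ x : H, φ x = 1 → ∀ (hx : (x : W) ∈ ⨆ i, A i) (l : ℤ),
        hA.compo (t ^ l • j.1) (⟨x, hx⟩ : (⨆ i, A i : Subgroup W)) = 1 := by
    rintro ⟨j, hj⟩
    rcases hJ j hj with h | h
    · obtain ⟨E, _, ρ, hPE, hρ⟩ := hE j
      have hle : H ≤ MulAction.stabilizer W j := by
        rw [hH, Subgroup.closure_le]
        rintro x (hx | hx)
        · rw [Set.mem_iUnion₂] at hx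
          obtain ⟨i, _, hx⟩ := hx
          exact hA.triv i x hx j
        · rw [Set.mem_singleton_iff] at hx
          subst hx
          exact h
      refine ⟨E, inferInstance, ρ.comp (Subgroup.inclusion hle), hPE, ?_⟩
      intro x hx hxN l
      have h1 : t ^ l • j = j := by
        have h2 : t ^ l ∈ MulAction.stabilizer W j := zpow_mem h l
        exact h2
      have h2 := hρ _ hx
      have h3 : (x : W) ∈ oth A (t ^ l • j) := by rw [h1]; exact h2
      exact hA.compo_of_mem_oth _ _ h3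
    · refine ⟨RWr (A j) (Multiplicative ℤ), inferInstance,
        ((hA.beta t ht j).codRestrict _ (hA.beta_mem t ht j h)).comp (Subgroup.inclusion hHV),
        RWr_mem hP (hA.A_mem hP hE j) hP.int, ?_⟩
      intro x hx hxN l
      exact hA.beta_eq_one t ht j ⟨x, hHV x.2⟩ (congrArg Subtype.val hx) hxN l
  choose T _ φ hPT hφ using hT
  refine hP.of_injective (G := Q × (∀ j : J, T j))
    ((f.comp H.subtype).prod (MonoidHom.pi φ)) ?_ (hP.prod _ _ hQ (Inherit_pi hP J T hPT))
  rw [injective_iff_map_eq_one]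
  intro x hx
  have hx1 : f x = 1 := (Prod.ext_iff.1 hx).1
  have hx2 : ∀ j, φ j x = 1 := fun j => congrFun (Prod.ext_iff.1 hx).2 j
  have hxN : (x : W) ∈ ⨆ i, A i := by rw [← hf]; exact hx1
  apply Subtype.ext
  refine hA.eq_one_of_compo ⟨x, hxN⟩ ?_
  intro i
  by_cases hi : ∃ l : ℤ, ∃ j ∈ J, t ^ l • j = i
  · obtain ⟨l, j, hj, rfl⟩ := hi
    exact hφ ⟨j, hj⟩ x (hx2 ⟨j, hj⟩) hxN l
  · apply hA.compo_of_mem_oth
    obtain ⟨k, hk⟩ := hdec x x.2
    have hk0 : k = 0 := by
      apply ht
      have h1 := mul_mem (inv_mem (hMN hk)) hxN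
      have h2 : ((x : W) * t ^ (-k))⁻¹ * x = t ^ k := by group
      rwa [h2] at h1
    subst hk0
    have hxM : (x : W) ∈ M := by simpa using hk
    have hMo : M ≤ oth A i := by
      refine iSup_le ?_
      rintro ⟨i', hi'⟩
      exact le_oth (fun h => hi (h ▸ hi'))
    exact hMo hxM

/-- the index of powers -/
theorem closure_mem' (t : W) (ht : ∀ k : ℤ, t ^ k ∈ (⨆ i, A i : Subgroup W) → k = 0)
    (J : Finset I) : P (Subgroup.closure ((⋃ j ∈ J, (A j : Set W)) ∪ {t})) := by
  classical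
  -- an exponent such that all finite orbits become trivial
  have hm : ∃ m : ℕ, 0 < m ∧ ∀ j ∈ J, t ^ m • j = j ∨ ∀ k : ℤ, t ^ k • j = j → k = 0 := by
    clear hQ
    induction J using Finset.induction_on with
    | empty => exact ⟨1, one_pos, by simp⟩
    | insert a J _ ih =>
      obtain ⟨m, hm, h1⟩ := ih
      by_cases h : ∀ k : ℤ, t ^ k • a = a → k = 0
      · refine ⟨m, hm, ?_⟩
        intro j hj
        rcases Finset.mem_insert.1 hj with rfl | hj
        · exact Or.inr h
        · exact h1 j hj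
      · push Not at h
        obtain ⟨k, hk, hk0⟩ := h
        have hmk : t ^ (m * k.natAbs) • a = a := by
          have h2 : t ^ k ∈ MulAction.stabilizer W a := hk
          have h3 : t ^ (k.natAbs) ∈ MulAction.stabilizer W a := by
            rcases Int.natAbs_eq k with h4 | h4
            · rw [h4, zpow_natCast] at h2
              simpa using h2
            · rw [h4, zpow_neg, zpow_natCast, inv_mem_iff] at h2
              simpa using h2
          rw [mul_comm, pow_mul]
          exact pow_mem h3 m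
        refine ⟨m * k.natAbs, Nat.mul_pos hm (Int.natAbs_pos.2 hk0), ?_⟩
        intro j hj
        rcases Finset.mem_insert.1 hj with rfl | hj
        · exact Or.inl hmk
        · rcases h1 j hj with h2 | h2
          · left
            rw [pow_mul]
            have h3 : t ^ m ∈ MulAction.stabilizer W j := h2
            exact pow_mem h3 _
          · exact Or.inr h2
  obtain ⟨m, hm, hmJ⟩ := hm
  set H := Subgroup.closure ((⋃ j ∈ J, (A j : Set W)) ∪ {t}) with hH
  let s := t ^ m
  let J' : Finset I := (Finset.range m ×ˢ J).image (fun p => t ^ p.1 • p.2)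
  have hJ' : ∀ r < m, ∀ j ∈ J, t ^ r • j ∈ J' := fun r hr j hj =>
    Finset.mem_image.2 ⟨(r, j), Finset.mem_product.2 ⟨Finset.mem_range.2 hr, hj⟩, rfl⟩
  set H' := Subgroup.closure ((⋃ j ∈ J', (A j : Set W)) ∪ {s}) with hH'
  have hPH' : P H' := by
    refine hA.closure_mem hP hQ f hf hE s ?_ J' ?_
    · intro k hk
      have h1 : t ^ ((m : ℤ) * k) ∈ (⨆ i, A i : Subgroup W) := by
        rw [zpow_mul, zpow_natCast]; exact hk
      have h2 := ht _ h1
      rcases mul_eq_zero.1 h2 with h3 | h3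
      · omega
      · exact h3
    · intro i hi
      obtain ⟨⟨r, j⟩, hp, rfl⟩ := Finset.mem_image.1 hi
      rw [Finset.mem_product] at hp
      rcases hmJ j hp.2 with h | h
      · left
        show t ^ m • t ^ r • j = t ^ r • j
        rw [← mul_smul, ← pow_add, add_comm, pow_add, mul_smul, h]
      · right
        intro k hk
        have h1 : t ^ ((m : ℤ) * k) • j = j := by
          have h2 : s ^ k * t ^ r = t ^ r * s ^ k := by
            show (t ^ m) ^ k * t ^ r = t ^ r * (t ^ m) ^ k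
            exact ((Commute.refl t).pow_pow m r |>.zpow_left k).eq
          rw [← mul_smul, h2, mul_smul] at hk
          have h3 := MulAction.injective _ hk
          rw [zpow_mul, zpow_natCast]
          exact h3
        rcases mul_eq_zero.1 (h _ h1) with h3 | h3
        · omega
        · exact h3
  -- powers of `t` normalise `H'`
  have hAs : ∀ (l : ℤ), ∀ j ∈ J, A (t ^ l • j) ≤ H' := by
    intro l j hj a ha
    -- l = m q + r
    have hmz : (0 : ℤ) < m := by exact_mod_cast hm
    have hr0 := Int.emod_nonneg l (ne_of_gt hmz)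
    have hr1 := Int.emod_lt_of_pos l hmz
    obtain ⟨r, hr⟩ := Int.eq_ofNat_of_zero_le hr0
    have hlq : l = m * (l / m) + r := by
      rw [← hr]; exact (Int.mul_ediv_add_emod l m).symm
    have h1 : t ^ l = s ^ (l / m) * t ^ r := by
      conv_lhs => rw [hlq]
      rw [zpow_add, zpow_mul, zpow_natCast, zpow_natCast]
    have hsH : s ∈ H' := Subgroup.subset_closure (Or.inr rfl)
    have h2 : s ^ (l / m) ∈ H' := zpow_mem hsH _
    have h3 : (s ^ (l / m))⁻¹ * a * (s ^ (l / m)) ∈ A (t ^ r • j) := by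
      have h4 := hA.conj (s ^ (l / m))⁻¹ _ a ha
      rw [inv_inv] at h4
      rw [h1, mul_smul, inv_smul_smul] at h4
      exact h4
    have h5 : (s ^ (l / m))⁻¹ * a * (s ^ (l / m)) ∈ H' :=
      Subgroup.subset_closure (Or.inl (Set.mem_iUnion₂.2 ⟨_, hJ' r (by omega) j hj, h3⟩))
    have h6 := mul_mem (mul_mem h2 h5) (inv_mem h2)
    have h7 : s ^ (l / m) * ((s ^ (l / m))⁻¹ * a * (s ^ (l / m))) * (s ^ (l / m))⁻¹ = a := by
      group
    rwa [h7] at h6
  -- `t` normalises `H'`
  have hnorm : ∀ k : ℤ, ∀ x ∈ H', t ^ k * x * (t ^ k)⁻¹ ∈ H' := by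
    intro k
    have h1 : H' ≤ H'.comap (MulAut.conj (t ^ k)).toMonoidHom := by
      rw [hH', Subgroup.closure_le]
      rintro x (hx | hx)
      · rw [Set.mem_iUnion₂] at hx
        obtain ⟨i, hi, hx⟩ := hx
        obtain ⟨⟨r, j⟩, hp, rfl⟩ := Finset.mem_image.1 hi
        rw [Finset.mem_product] at hp
        have h2 := hA.conj (t ^ k) _ x hx
        have h3 : t ^ k • t ^ r • j = t ^ (k + r) • j := by
          rw [← mul_smul, zpow_add, zpow_natCast]
        rw [h3] at h2
        exact hAs (k + r) j hp.2 h2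
      · rw [Set.mem_singleton_iff] at hx
        subst hx
        show t ^ k * s * (t ^ k)⁻¹ ∈ H'
        have h2 : t ^ k * s * (t ^ k)⁻¹ = s := by
          show t ^ k * t ^ m * (t ^ k)⁻¹ = t ^ m
          rw [← zpow_natCast t m, ← zpow_add, ← zpow_neg, ← zpow_add]
          congr 1; ring
        rw [h2]
        exact Subgroup.subset_closure (Or.inr rfl)
    exact fun x hx => h1 hx
  have hle : H' ≤ H := by
    rw [hH', Subgroup.closure_le]
    rintro x (hx | hx)
    · rw [Set.mem_iUnion₂] at hx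
      obtain ⟨i, hi, hx⟩ := hx
      obtain ⟨⟨r, j⟩, hp, rfl⟩ := Finset.mem_image.1 hi
      rw [Finset.mem_product] at hp
      have htH : t ∈ H := Subgroup.subset_closure (Or.inr rfl)
      have h1 : (t ^ r)⁻¹ * x * t ^ r ∈ A j := by
        have h4 := hA.conj (t ^ r)⁻¹ _ x hx
        rw [inv_inv] at h4
        simpa using h4
      have h2 : (t ^ r)⁻¹ * x * t ^ r ∈ H :=
        Subgroup.subset_closure (Or.inl (Set.mem_iUnion₂.2 ⟨j, hp.2, h1⟩))
      have h3 := mul_mem (mul_mem (pow_mem htH r) h2) (inv_mem (pow_mem htH r))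
      have h4 : t ^ r * ((t ^ r)⁻¹ * x * t ^ r) * (t ^ r)⁻¹ = x := by group
      rwa [h4] at h3
    · rw [Set.mem_singleton_iff] at hx
      subst hx
      have htH : t ∈ H := Subgroup.subset_closure (Or.inr rfl)
      exact pow_mem htH m
  -- decomposition of elements of `H`
  have hdec : ∀ x ∈ H, ∃ k : ℤ, t ^ (-k) * x ∈ H' := by
    intro x hx
    refine Subgroup.closure_induction (p := fun x _ => ∃ k : ℤ, t ^ (-k) * x ∈ H') ?_ ?_ ?_ ?_ hx
    · rintro x (hx | hx)
      · rw [Set.mem_iUnion₂] at hx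
        obtain ⟨i, hi, hx⟩ := hx
        refine ⟨0, ?_⟩
        rw [neg_zero, zpow_zero, one_mul]
        have := hAs 0 i hi
        rw [zpow_zero, one_smul] at this
        exact this hx
      · rw [Set.mem_singleton_iff] at hx
        subst hx
        exact ⟨1, by simp⟩
    · exact ⟨0, by simp⟩
    · rintro v w _ _ ⟨k, hk⟩ ⟨l, hl⟩
      refine ⟨k + l, ?_⟩
      have h1 := mul_mem (hnorm (-l) _ hk) hl
      have h2 : t ^ (-l) * (t ^ (-k) * v) * (t ^ (-l))⁻¹ * (t ^ (-l) * w) =
          t ^ (-(k + l)) * (v * w) := by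
        group
      rwa [h2] at h1
    · rintro v _ ⟨k, hk⟩
      refine ⟨-k, ?_⟩
      have h1 := hnorm k _ (inv_mem hk)
      have h2 : t ^ k * (t ^ (-k) * v)⁻¹ * (t ^ k)⁻¹ = t ^ (- -k) * v⁻¹ := by
        group
      rwa [h2] at h1
  refine hP.overgroup H (H'.subgroupOf H) (finiteIndex_aux (Subgroup.subset_closure (Or.inr rfl))
    m hm (Subgroup.subset_closure (Or.inr rfl)) hdec) ?_
  exact hP.of_mulEquiv (Subgroup.subgroupOfEquivOfLe hle).symm hPH'

theorem VT_mem (t : W) (ht : ∀ k : ℤ, t ^ k ∈ (⨆ i, A i : Subgroup W) → k = 0) :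
    P (hA.VT t) := by
  classical
  let HJ : Finset I → Subgroup W := fun J =>
    Subgroup.closure ((⋃ j ∈ J, (A j : Set W)) ∪ {t})
  have hmono : ∀ J J' : Finset I, J ⊆ J' → HJ J ≤ HJ J' := by
    intro J J' hJ
    apply Subgroup.closure_mono
    rintro x (hx | hx)
    · rw [Set.mem_iUnion₂] at hx
      obtain ⟨i, hi, hx⟩ := hx
      exact Or.inl (Set.mem_iUnion₂.2 ⟨i, hJ hi, hx⟩)
    · exact Or.inr hx
  refine hP.of_directed_union HJ ?_ (hA.VT t) ?_
    (fun J => hA.closure_mem' hP hQ f hf hE t ht J)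
  · intro J J'
    exact ⟨J ∪ J', hmono _ _ Finset.subset_union_left, hmono _ _ Finset.subset_union_right⟩
  · rintro v ⟨k, hk⟩
    have h1 : ∀ n ∈ (⨆ i, A i : Subgroup W), ∃ J, n ∈ HJ J := by
      intro n hn
      refine Subgroup.iSup_induction A (C := fun n => ∃ J, n ∈ HJ J) hn ?_ ?_ ?_
      · intro i x hx
        exact ⟨{i}, Subgroup.subset_closure (Or.inl (Set.mem_iUnion₂.2 ⟨i, by simp, hx⟩))⟩
      · exact ⟨∅, one_mem _⟩
      · rintro x y ⟨J, hx⟩ ⟨J', hy⟩
        exact ⟨J ∪ J', mul_mem (hmono _ _ Finset.subset_union_left hx)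
          (hmono _ _ Finset.subset_union_right hy)⟩
    obtain ⟨J, hJ⟩ := h1 _ hk
    refine ⟨J, ?_⟩
    have h2 := mul_mem hJ (zpow_mem (Subgroup.subset_closure (Or.inr rfl) : t ∈ HJ J) k)
    have h3 : v * t ^ (-k) * t ^ k = v := by group
    rwa [h3] at h2

omit hQ hf in
/-- the sum itself -/
theorem sum_mem : P (⨆ i, A i : Subgroup W) := by
  classical
  let HJ : Finset I → Subgroup W := fun J => ⨆ j : J, A j.1
  have hmono : ∀ J J' : Finset I, J ⊆ J' → HJ J ≤ HJ J' := by
    intro J J' hJ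
    exact iSup_le (fun j => le_iSup (fun j : J' => A j.1) ⟨j.1, hJ j.2⟩)
  have hle : ∀ J, HJ J ≤ ⨆ i, A i := fun J => iSup_le (fun j => le_iSup A j.1)
  refine hP.of_directed_union HJ ?_ _ ?_ ?_
  · intro J J'
    exact ⟨J ∪ J', hmono _ _ Finset.subset_union_left, hmono _ _ Finset.subset_union_right⟩
  · intro n hn
    refine Subgroup.iSup_induction A (C := fun n => ∃ J, n ∈ HJ J) hn ?_ ?_ ?_
    · intro i x hx
      exact ⟨{i}, (le_iSup (fun j : ({i} : Finset I) => A j.1) ⟨i, by simp⟩) hx⟩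
    · exact ⟨∅, one_mem _⟩
    · rintro x y ⟨J, hx⟩ ⟨J', hy⟩
      exact ⟨J ∪ J', mul_mem (hmono _ _ Finset.subset_union_left hx)
        (hmono _ _ Finset.subset_union_right hy)⟩
  · intro J
    refine hP.of_injective (G := ∀ j : J, A j.1)
      (MonoidHom.pi (fun j : J => (MonoidHom.mk' (hA.compo j.1) (hA.compo_mul j.1)).comp
        (Subgroup.inclusion (hle J)))) ?_ (Inherit_pi hP J _ (fun j => hA.A_mem hP hE j.1))
    rw [injective_iff_map_eq_one]
    intro x hx
    apply Subtype.ext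
    refine hA.eq_one_of_compo ⟨x, hle J x.2⟩ ?_
    intro i
    by_cases hi : i ∈ J
    · exact congrFun hx ⟨i, hi⟩
    · apply hA.compo_of_mem_oth
      have : HJ J ≤ oth A i := iSup_le (fun j => le_oth (fun h => hi (h ▸ j.2)))
      exact this x.2

theorem VT_mem' (t : W) : P (hA.VT t) := by
  by_cases ht : ∀ k : ℤ, t ^ k ∈ (⨆ i, A i : Subgroup W) → k = 0
  · exact hA.VT_mem hP hQ f hf hE t ht
  · push Not at ht
    obtain ⟨k, hk, hk0⟩ := ht
    refine hP.overgroup _ ((⨆ i, A i : Subgroup W).subgroupOf (hA.VT t))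
      (finiteIndex_aux (hA.t_mem_VT t) k.natAbs (Int.natAbs_pos.2 hk0) ?_ ?_) ?_
    · rcases Int.natAbs_eq k with h4 | h4
      · rw [h4, zpow_natCast] at hk
        simpa using hk
      · rw [h4, zpow_neg, zpow_natCast, inv_mem_iff] at hk
        simpa using hk
    · rintro x ⟨l, hl⟩
      refine ⟨l, ?_⟩
      have h1 := hA.sum_conj (t ^ (-l)) hl
      have h2 : t ^ (-l) * (x * t ^ (-l)) * (t ^ (-l))⁻¹ = t ^ (-l) * x := by group
      rwa [h2] at h1
    · exact hP.of_mulEquiv (Subgroup.subgroupOfEquivOfLe (hA.sum_le_VT t)).symm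
        (hA.sum_mem hP hE)

end Permuted

/-- the extension property -/
def ExtClosed (P : ∀ (G : Type) [Group G], Prop) : Prop :=
  ∀ (G Q : Type) [Group G] [Group Q] (f : G →* Q), P Q →
    (∀ C : Subgroup Q, (∃ Z : Subgroup C, Z.FiniteIndex ∧ IsCyclic Z) → P (C.comap f)) → P G

theorem Permuted.mem {P : ∀ (G : Type) [Group G], Prop} (hP : Inherit P) (hX : ExtClosed P)
    {A : I → Subgroup W} (hA : Permuted A)
    {Q : Type} [Group Q] (hQ : P Q) (f : W →* Q) (hf : f.ker = ⨆ i, A i)
    (hE : ∀ i, ∃ (E : Type) (_ : Group E) (ρ : MulAction.stabilizer W i →* E), P E ∧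
      ∀ x, ρ x = 1 → (x : W) ∈ Permuted.oth A i) : P W := by
  refine hX W Q f hQ ?_
  rintro C ⟨Z, hZ, hcyc⟩
  let g : C.comap f →* C := f.subgroupComap C
  refine hP.overgroup _ (Z.comap g) ?_ ?_
  · refine ⟨?_⟩
    rw [Subgroup.index_comap]
    exact Subgroup.FiniteIndex.index_ne_zero (H := Z.subgroupOf g.range)
  · -- the image in `Q` is cyclic
    let K : Subgroup W := (Z.comap g).map (C.comap f).subtype
    have hKcyc : IsCyclic (K.map f) := by
      let φ : K.map f →* Z :=
        { toFun := fun q => ⟨⟨q.1, by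
            obtain ⟨w, ⟨v, hv, rfl⟩, hw⟩ := q.2
            rw [← hw]
            exact v.2⟩, by
            obtain ⟨w, ⟨v, hv, rfl⟩, hw⟩ := q.2
            have : (⟨q.1, by rw [← hw]; exact v.2⟩ : C) = g v := Subtype.ext hw.symm
            rw [this]
            exact hv⟩
          map_one' := rfl
          map_mul' := fun _ _ => rfl }
      exact isCyclic_of_injective φ (by
        intro a b hab
        apply Subtype.ext
        exact congrArg (fun z : Z => ((z : C) : Q)) hab)
    obtain ⟨⟨q, hq⟩, hgen⟩ := hKcyc.exists_generator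
    obtain ⟨t, htK, rfl⟩ := hq
    have hKV : K ≤ hA.VT t := by
      intro v hv
      obtain ⟨k, hk⟩ := hgen ⟨f v, ⟨v, hv, rfl⟩⟩
      refine ⟨k, ?_⟩
      rw [← hf, MonoidHom.mem_ker, map_mul, map_zpow, zpow_neg, mul_inv_eq_one]
      exact (congrArg Subtype.val hk).symm
    have hK : P K := hP.of_injective (Subgroup.inclusion hKV) (Subgroup.inclusion_injective hKV)
      (hA.VT_mem' hP hQ f hf hE t)
    refine hP.of_injective (G := K)
      ((C.comap f).subtype.subgroupMap (Z.comap g)) ?_ hK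
    exact ((Z.comap g).equivMapOfInjective _ (C.comap f).subtype_injective).injective

end Pool.Agent.helper7.Wr
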