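import Pool.Agent.helper16.FJ.Class

set_option autoImplicit false

/-!
# Wreath products with residually finite groups as directed colimits
-/

namespace Pool.Agent.helper7.Wr

/-- The (unrestricted) permutational wreath product of `G` and `H` over the `H`-set `X`. -/
@[ext]
structure PWr (G X H : Type) where
  /-- the function -/
  left : X → G
  /-- the acting element -/
  right : H

namespace PWr

variable {G X H : Type} [Group G] [Group H] [MulAction H X]

instance : Mul (PWr G X H) where
  mul a b := ⟨fun x => a.left x * b.left (a.right⁻¹ • x), a.right * b.right⟩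

instance : One (PWr G X H) where
  one := ⟨fun _ => 1, 1⟩

instance : Inv (PWr G X H) where
  inv a := ⟨fun x => (a.left (a.right • x))⁻¹, a.right⁻¹⟩

@[simp] theorem mul_left (a b : PWr G X H) (x : X) :
    (a * b).left x = a.left x * b.left (a.right⁻¹ • x) := rfl
@[simp] theorem mul_right (a b : PWr G X H) : (a * b).right = a.right * b.right := rfl
omit [MulAction H X] in
@[simp] theorem one_left (x : X) : (1 : PWr G X H).left x = 1 := rfl
omit [MulAction H X] in
@[simp] theorem one_right : (1 : PWr G X H).right = 1 := rfl
@[simp] theorem inv_left (a : PWr G X H) (x : X) :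
    (a⁻¹).left x = (a.left (a.right • x))⁻¹ := rfl
@[simp] theorem inv_right (a : PWr G X H) : (a⁻¹).right = a.right⁻¹ := rfl

instance : Group (PWr G X H) where
  mul_assoc a b c := by ext <;> simp [mul_assoc, mul_smul]
  one_mul a := by ext <;> simp
  mul_one a := by ext <;> simp
  inv_mul_cancel a := by ext <;> simp

/-- the projection -/
def rightHom : PWr G X H →* H where
  toFun := right
  map_one' := rfl
  map_mul' _ _ := rfl

/-- functions -/
def ofFun : (X → G) →* PWr G X H where
  toFun f := ⟨f, 1⟩
  map_one' := rfl
  map_mul' _ _ := by ext <;> simp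

/-- the acting group, with constant function -/
def constHom {U : Type} [Group U] (j : H →* U) : H →* PWr U X H where
  toFun h := ⟨fun _ => j h, h⟩
  map_one' := by ext <;> simp
  map_mul' _ _ := by ext <;> simp

@[simp] theorem constHom_left {U : Type} [Group U] (j : H →* U) (h : H) (x : X) :
    (constHom (X := X) j h).left x = j h := rfl
@[simp] theorem constHom_right {U : Type} [Group U] (j : H →* U) (h : H) :
    (constHom (X := X) j h).right = h := rfl
@[simp] theorem ofFun_left (f : X → G) (x : X) : (ofFun (H := H) f).left x = f x := rfl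
@[simp] theorem ofFun_right (f : X → G) : (ofFun (H := H) f).right = 1 := rfl
@[simp] theorem rightHom_apply (a : PWr G X H) : rightHom a = a.right := rfl

end PWr

open Monoid

variable {G H : Type} [Group G] [Group H]

/-- the projection of the free product onto the acting group -/
def kap : Coprod G H →* H := Coprod.lift 1 (MonoidHom.id H)

@[simp] theorem kap_inl (g : G) : kap (H := H) (Coprod.inl g) = 1 := by simp [kap]
@[simp] theorem kap_inr (h : H) : kap (G := G) (Coprod.inr h) = h := by simp [kap]

section psi

variable {X : Type} [MulAction H X]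

open Classical in
/-- The homomorphism `Ψ` of the free product `U = G * H` into the permutational wreath product of
`U` over `X`: an element of `G` is put at the base point, an element of `H` acts, with constant
function. -/
noncomputable def psi (x₀ : X) : Coprod G H →* PWr (Coprod G H) X H :=
  Coprod.lift
    (PWr.ofFun.comp ((MonoidHom.mulSingle (fun _ : X => Coprod G H) x₀).comp Coprod.inl))
    (PWr.constHom Coprod.inr)

open Classical in
theorem psi_inl_left (x₀ : X) (g : G) (x : X) :
    (psi x₀ (Coprod.inl g : Coprod G H)).left x = if x = x₀ then Coprod.inl g else 1 := by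
  simp [psi, Pi.mulSingle_apply]

theorem psi_inl_right (x₀ : X) (g : G) : (psi x₀ (Coprod.inl g : Coprod G H)).right = 1 := by
  simp [psi]

theorem psi_inr_left (x₀ : X) (h : H) (x : X) :
    (psi x₀ (Coprod.inr h : Coprod G H)).left x = Coprod.inr h := by
  simp [psi]

theorem psi_inr_right (x₀ : X) (h : H) : (psi x₀ (Coprod.inr h : Coprod G H)).right = h := by
  simp [psi]

theorem psi_right (x₀ : X) (w : Coprod G H) : (psi x₀ w).right = kap w := by
  have : (PWr.rightHom.comp (psi x₀) : Coprod G H →* H) = kap := by
    apply Coprod.hom_ext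
    · ext g; simp [psi_inl_right]
    · ext h; simp [psi_inr_right]
  exact DFunLike.congr_fun this w

theorem psi_mul_left (x₀ : X) (w w' : Coprod G H) (x : X) :
    (psi x₀ (w * w')).left x = (psi x₀ w).left x * (psi x₀ w').left ((kap w)⁻¹ • x) := by
  rw [map_mul, PWr.mul_left, psi_right]

theorem kap_psi (x₀ : X) (w : Coprod G H) : ∀ x : X, kap ((psi x₀ w).left x) = kap w := by
  classical
  induction w using Coprod.induction_on with
  | inl g =>
    intro x
    rw [psi_inl_left]
    split_ifs <;> simp
  | inr h => intro x; rw [psi_inr_left]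
  | mul w w' ih ih' =>
    intro x
    rw [psi_mul_left, map_mul, map_mul, ih, ih']

/-- comparison of the homomorphisms `Ψ` for two `H`-sets -/
theorem psi_comp {Y : Type} [MulAction H Y] (q : Y → X) (hq : ∀ (h : H) y, q (h • y) = h • q y)
    (y₀ : Y) (w : Coprod G H) :
    ∀ y : Y, (psi y₀ w).left y = (psi y₀ ((psi (q y₀) w).left (q y))).left y := by
  classical
  induction w using Coprod.induction_on with
  | inl g =>
    intro y
    rw [psi_inl_left (q y₀) g (q y)]
    by_cases h : q y = q y₀
    · rw [if_pos h]
    · rw [if_neg h, map_one, PWr.one_left, psi_inl_left, if_neg (fun h' => h (by rw [h']))]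
  | inr h => intro y; rw [psi_inr_left (q y₀) h (q y)]
  | mul w w' ih ih' =>
    intro y
    rw [psi_mul_left, psi_mul_left, psi_mul_left, ih, ih', kap_psi, hq]

theorem psi_ker_mono {Y : Type} [MulAction H Y] (q : Y → X)
    (hq : ∀ (h : H) y, q (h • y) = h • q y) (y₀ : Y) :
    (psi (G := G) (H := H) (q y₀)).ker ≤ (psi y₀).ker := by
  intro w hw
  rw [MonoidHom.mem_ker] at hw ⊢
  have hk : kap w = 1 := by
    rw [← psi_right (q y₀), hw, PWr.one_right]
  apply PWr.ext
  · funext y
    rw [psi_comp q hq y₀ w y, hw, PWr.one_left, map_one]
  · rw [psi_right, hk, PWr.one_right]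

end psi

section support

/-- the homomorphism to the regular wreath product -/
noncomputable def toReg : Coprod G H →* RegularWreathProduct G H := by
  classical
  exact Coprod.lift
    { toFun := fun g => ⟨Pi.mulSingle 1 g, 1⟩
      map_one' := by ext <;> simp
      map_mul' := fun a b => by ext <;> simp [Pi.mulSingle_mul] }
    RegularWreathProduct.inl

open Classical in
theorem toReg_inl_left (g : G) (h : H) :
    (toReg (Coprod.inl g : Coprod G H)).left h = if h = 1 then g else 1 := by
  simp [toReg, Pi.mulSingle_apply]

theorem toReg_inl_right (g : G) : (toReg (Coprod.inl g : Coprod G H)).right = 1 := by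
  simp [toReg]

theorem toReg_inr_left (k : H) (h : H) :
    (toReg (Coprod.inr k : Coprod G H)).left h = 1 := by
  simp [toReg]

theorem toReg_inr_right (k : H) : (toReg (Coprod.inr k : Coprod G H)).right = k := by
  simp [toReg]

theorem toReg_right (w : Coprod G H) : (toReg w).right = kap w := by
  have : (RegularWreathProduct.rightHom.comp toReg : Coprod G H →* H) = kap := by
    apply Coprod.hom_ext
    · ext g; simp [toReg_inl_right]
    · ext h; simp [toReg_inr_right]
  exact DFunLike.congr_fun this w

theorem toReg_mul_left (w w' : Coprod G H) (h : H) :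
    (toReg (w * w')).left h = (toReg w).left h * (toReg w').left ((kap w)⁻¹ * h) := by
  rw [map_mul, RegularWreathProduct.mul_left, toReg_right]
  rfl

/-- `Ψ` for the regular `H`-set in terms of the wreath product -/
theorem psi_reg (w : Coprod G H) : ∀ h : H, (psi (1 : H) w).left h =
    Coprod.inr h * Coprod.inl ((toReg w).left h) * (Coprod.inr h)⁻¹ * Coprod.inr (kap w) := by
  classical
  induction w using Coprod.induction_on with
  | inl g =>
    intro h
    rw [psi_inl_left, toReg_inl_left, kap_inl]
    by_cases hh : h = 1
    · simp [hh]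
    · simp [hh]
  | inr k => intro h; rw [psi_inr_left, toReg_inr_left, kap_inr]; simp
  | mul w w' ih ih' =>
    intro h
    rw [psi_mul_left, toReg_mul_left, map_mul, ih, ih', smul_eq_mul]
    simp only [map_mul, map_inv, mul_inv_rev, inv_inv]
    group

theorem toReg_ker : (toReg : Coprod G H →* _).ker = (psi (1 : H)).ker := by
  ext w
  rw [MonoidHom.mem_ker, MonoidHom.mem_ker]
  constructor
  · intro hw
    have hk : kap w = 1 := by rw [← toReg_right, hw]; rfl
    apply PWr.ext
    · funext h
      rw [psi_reg, hw, hk]
      simp
    · rw [psi_right, hk]; rfl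
  · intro hw
    have hk : kap w = 1 := by rw [← psi_right (1 : H), hw]; rfl
    apply RegularWreathProduct.ext
    · funext h
      have h1 := psi_reg w h
      rw [hw, hk, PWr.one_left, map_one, mul_one] at h1
      have h2 : Coprod.inl (N := H) ((toReg w).left h) = 1 := by
        have h3 := mul_eq_one_iff_eq_inv.1 h1.symm
        rw [inv_inv] at h3
        exact mul_left_cancel (h3.trans (mul_one _).symm)
      have h4 := congrArg (Coprod.fst) h2
      simpa using h4
    · rw [toReg_right, hk]; rfl

/-- elements of the free product only involve finitely many positions -/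
theorem exists_support (w : Coprod G H) : ∃ S : Set H, S.Finite ∧
    (∀ h, h ∉ S → (psi (1 : H) w).left h = Coprod.inr (kap w)) ∧
    ∀ (X : Type) [MulAction H X] (x₀ : X), Set.InjOn (fun h : H => h • x₀) S →
      (∀ h ∈ S, (psi x₀ w).left (h • x₀) = (psi (1 : H) w).left h) ∧
      ∀ x, (∀ h ∈ S, h • x₀ ≠ x) → (psi x₀ w).left x = Coprod.inr (kap w) := by
  classical
  induction w using Coprod.induction_on with
  | inl g =>
    refine ⟨{1}, Set.finite_singleton _, ?_, ?_⟩
    · intro h hh
      rw [psi_inl_left, if_neg (by simpa using hh), kap_inl, map_one]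
    · intro X _ x₀ _
      refine ⟨?_, ?_⟩
      · intro h hh
        rw [Set.mem_singleton_iff.1 hh, psi_inl_left, psi_inl_left]
        simp
      · intro x hx
        have := hx 1 rfl
        rw [one_smul] at this
        rw [psi_inl_left, if_neg this.symm, kap_inl, map_one]
  | inr k =>
    refine ⟨∅, Set.finite_empty, ?_, ?_⟩
    · intro h _
      rw [psi_inr_left, kap_inr]
    · intro X _ x₀ _
      refine ⟨fun h hh => hh.elim, fun x _ => ?_⟩
      rw [psi_inr_left, kap_inr]
  | mul w w' ih ih' =>
    obtain ⟨S, hS, h1, h2⟩ := ih
    obtain ⟨S', hS', h1', h2'⟩ := ih'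
    refine ⟨S ∪ (fun h => kap w * h) '' S', hS.union (hS'.image _), ?_, ?_⟩
    · intro h hh
      rw [Set.mem_union, not_or] at hh
      rw [psi_mul_left, h1 h hh.1, h1', map_mul, map_mul]
      intro h3
      exact hh.2 ⟨_, h3, by simp⟩
    · intro X _ x₀ hinj
      have hi : Set.InjOn (fun h : H => h • x₀) S := hinj.mono Set.subset_union_left
      have hi' : Set.InjOn (fun h : H => h • x₀) S' := by
        intro a ha b hb hab
        have : kap w * a = kap w * b := by
          apply hinj (Or.inr ⟨a, ha, rfl⟩) (Or.inr ⟨b, hb, rfl⟩)
          show (kap w * a) • x₀ = (kap w * b) • x₀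
          rw [mul_smul, mul_smul]
          exact congrArg _ hab
        exact mul_left_cancel this
      obtain ⟨h3, h4⟩ := h2 X x₀ hi
      obtain ⟨h3', h4'⟩ := h2' X x₀ hi'
      -- values at translates of the base point
      have key : ∀ h ∈ S ∪ (fun h => kap w * h) '' S',
          (psi x₀ w).left (h • x₀) = (psi (1 : H) w).left h := by
        intro h hh
        by_cases hS1 : h ∈ S
        · exact h3 h hS1
        · rw [h1 h hS1]
          apply h4
          intro s hs hsx
          exact hS1 ((hinj (Or.inl hs) hh hsx) ▸ hs)
      have key' : ∀ h, kap w * h ∈ S ∪ (fun h => kap w * h) '' S' →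
          (psi x₀ w').left (h • x₀) = (psi (1 : H) w').left h := by
        intro h hh
        by_cases hS1 : h ∈ S'
        · exact h3' h hS1
        · rw [h1' h hS1]
          apply h4'
          intro s hs hsx
          have : kap w * s = kap w * h := by
            apply hinj (Or.inr ⟨s, hs, rfl⟩) hh
            show (kap w * s) • x₀ = (kap w * h) • x₀
            rw [mul_smul, mul_smul, hsx]
          exact hS1 (mul_left_cancel this ▸ hs)
      refine ⟨?_, ?_⟩
      · intro h hh
        rw [psi_mul_left, psi_mul_left, key h hh, ← mul_smul, key' ((kap w)⁻¹ * h) (by simpa using hh)]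
        rfl
      · intro x hx
        rw [psi_mul_left, h4 x (fun s hs => hx s (Or.inl hs)), h4' _ ?_, map_mul, map_mul]
        intro s hs hsx
        apply hx (kap w * s) (Or.inr ⟨s, hs, rfl⟩)
        rw [mul_smul, hsx, smul_inv_smul]

end support

end Pool.Agent.helper7.Wr
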