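import Pool.Agent.helper7.Wr.Basic

set_option autoImplicit false

/-!
# Wreath products with residually finite groups: the colimit
-/

namespace Pool.Agent.helper7.Wr

open Monoid Pool.Agent.helper16.FJ

variable {G H : Type} [Group G] [Group H]

/-- the restricted regular wreath product -/
def RWr (G H : Type) [Group G] [Group H] : Subgroup (RegularWreathProduct G H) where
  carrier := {w | {h | w.left h ≠ 1}.Finite}
  one_mem' := by simp
  mul_mem' := by
    intro a b ha hb
    have h1 : {h | b.left (a.right⁻¹ * h) ≠ 1}.Finite :=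
      Set.Finite.preimage (f := fun h => a.right⁻¹ * h)
        (fun _ _ _ _ h => mul_left_cancel h) hb
    refine (ha.union h1).subset ?_
    intro h hh
    by_contra hcon
    rw [Set.mem_union, not_or] at hcon
    simp only [Set.mem_ofPred_eq, not_not] at hcon
    apply hh
    show a.left h * b.left (a.right⁻¹ * h) = 1
    rw [hcon.1, hcon.2, mul_one]
  inv_mem' := by
    intro a ha
    have h1 : {h | a.left (a.right * h) ≠ 1}.Finite :=
      Set.Finite.preimage (f := fun h => a.right * h)
        (fun _ _ _ _ h => mul_left_cancel h) ha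
    refine h1.subset ?_
    intro h hh hcon
    apply hh
    show (a.left (a.right * h))⁻¹ = 1
    rw [hcon, inv_one]

theorem mem_RWr {w : RegularWreathProduct G H} : w ∈ RWr G H ↔ {h | w.left h ≠ 1}.Finite :=
  Iff.rfl

theorem toReg_mem (w : Coprod G H) : toReg w ∈ RWr G H := by
  classical
  induction w using Coprod.induction_on with
  | inl g =>
    rw [mem_RWr]
    refine (Set.finite_singleton (1 : H)).subset ?_
    intro h hh
    rw [Set.mem_ofPred_eq, toReg_inl_left] at hh
    rw [Set.mem_singleton_iff]
    by_contra hcon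
    exact hh (if_neg hcon)
  | inr k =>
    rw [mem_RWr]
    refine Set.finite_empty.subset ?_
    intro h hh
    exact hh (toReg_inr_left k h)
  | mul w w' ih ih' =>
    rw [map_mul]
    exact mul_mem ih ih'

/-- the homomorphism onto the restricted wreath product -/
noncomputable def toRWr : Coprod G H →* RWr G H := toReg.codRestrict _ toReg_mem

theorem toReg_conj (g : G) (h x : H) (hx : x ≠ h) :
    (toReg (Coprod.inr h * Coprod.inl g * Coprod.inr h⁻¹ : Coprod G H)).left x = 1 := by
  classical
  rw [toReg_mul_left, toReg_mul_left, toReg_inr_left, toReg_inr_left, toReg_inl_left, if_neg]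
  · simp
  · rw [kap_inr]
    intro hcon
    apply hx
    rw [inv_mul_eq_one] at hcon
    exact hcon.symm

theorem toReg_conj' (g : G) (h : H) :
    (toReg (Coprod.inr h * Coprod.inl g * Coprod.inr h⁻¹ : Coprod G H)).left h = g := by
  classical
  rw [toReg_mul_left, toReg_mul_left, toReg_inr_left, toReg_inr_left, toReg_inl_left, if_pos]
  · simp
  · rw [kap_inr]
    simp

theorem kap_conj (g : G) (h : H) :
    kap (Coprod.inr h * Coprod.inl g * Coprod.inr h⁻¹ : Coprod G H) = 1 := by
  simp

theorem toReg_surj (S : Finset H) : ∀ w : RegularWreathProduct G H,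
    (∀ h, h ∉ S → w.left h = 1) → ∃ u : Coprod G H, toReg u = w := by
  classical
  induction S using Finset.induction_on with
  | empty =>
    intro w hw
    refine ⟨Coprod.inr w.right, ?_⟩
    apply RegularWreathProduct.ext
    · funext h
      rw [toReg_inr_left, hw h (by simp)]
    · rw [toReg_inr_right]
  | insert a S ha ih =>
    intro w hw
    let c : Coprod G H := Coprod.inr a * Coprod.inl (w.left a) * Coprod.inr a⁻¹
    have hck : kap c = 1 := kap_conj _ _
    obtain ⟨u, hu⟩ := ih ((toReg c)⁻¹ * w) (by
      intro h hh
      have h1 : ((toReg c)⁻¹ * w).left h = ((toReg c).left h)⁻¹ * w.left h := by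
        rw [RegularWreathProduct.mul_left]
        simp only [Pi.mul_apply, RegularWreathProduct.inv_left, RegularWreathProduct.inv_right,
          Pi.inv_apply, toReg_right, hck, inv_one, one_mul]
      rw [h1]
      by_cases hah : h = a
      · rw [hah]
        show ((toReg c).left a)⁻¹ * _ = _
        rw [toReg_conj', inv_mul_cancel]
      · rw [show (toReg c).left h = 1 from toReg_conj _ _ _ hah, hw h ?_]
        · simp
        · simp [hah, hh])
    refine ⟨c * u, ?_⟩
    rw [map_mul, hu]
    simp

theorem toRWr_surjective : Function.Surjective (toRWr : Coprod G H →* RWr G H) := by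
  rintro ⟨w, hw⟩
  rw [mem_RWr] at hw
  obtain ⟨u, hu⟩ := toReg_surj hw.toFinset w (by
    intro h hh
    by_contra hcon
    exact hh (by simpa using hcon))
  exact ⟨u, Subtype.ext hu⟩

section mem

variable {P : ∀ (G : Type) [Group G], Prop} (hP : Inherit P)
include hP

/-- permutational wreath products over a finite set on which a subgroup of finite index acts
trivially -/
theorem PWr_mem {U : Type} [Group U] (hU : P U) (hH : P H) (X : Type) [Finite X] [MulAction H X]
    (N : Subgroup H) [N.FiniteIndex] (hN : ∀ n ∈ N, ∀ x : X, n • x = x) : P (PWr U X H) := by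
  refine hP.overgroup _ (N.comap (PWr.rightHom : PWr U X H →* H)) ?_ ?_
  · exact ⟨fun h => Subgroup.FiniteIndex.index_ne_zero (H := N)
      (by rw [← Subgroup.index_comap_of_surjective N (f := PWr.rightHom (G := U) (X := X))
            (fun h => ⟨⟨fun _ => 1, h⟩, rfl⟩)]; exact h)⟩
  let f : (N.comap (PWr.rightHom : PWr U X H →* H)) →* (X → U) × N :=
    { toFun := fun m => (m.1.left, ⟨m.1.right, m.2⟩)
      map_one' := rfl
      map_mul' := by
        intro a b
        apply Prod.ext
        · funext x
          show a.1.left x * b.1.left ((a.1.right)⁻¹ • x) = a.1.left x * b.1.left x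
          rw [hN (a.1.right)⁻¹ (inv_mem a.2) x]
        · rfl }
  refine hP.of_injective f ?_ (hP.prod _ _ (hP.pi hU X) (hP.subgroup _ hH N))
  intro a b hab
  apply Subtype.ext
  apply PWr.ext
  · exact (Prod.ext_iff.1 hab).1
  · exact congrArg Subtype.val (Prod.ext_iff.1 hab).2

theorem quot_mem (hG : P G) (hH : P H) (N : FiniteIndexNormalSubgroup H) :
    P (Coprod G H ⧸ (psi (G := G) ((1 : H) : H ⧸ N.toSubgroup)).ker) := by
  refine hP.of_injective (QuotientGroup.kerLift (psi ((1 : H) : H ⧸ N.toSubgroup)))
    (QuotientGroup.kerLift_injective _)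
    (PWr_mem hP (hP.coprod _ _ hG hH) hH (H ⧸ N.toSubgroup) N.toSubgroup ?_)
  intro n hn x
  induction x using QuotientGroup.induction_on with
  | H z =>
    show ((n * z : H) : H ⧸ N.toSubgroup) = (z : H ⧸ N.toSubgroup)
    rw [eq_comm, QuotientGroup.eq, ← mul_assoc]
    exact Subgroup.Normal.conj_mem' inferInstance n hn z

omit hP in
theorem psi_ker_mono_quot (N N' : Subgroup H) (hle : N' ≤ N) :
    (psi (G := G) (H := H) ((1 : H) : H ⧸ N)).ker ≤
      (psi (G := G) (H := H) ((1 : H) : H ⧸ N')).ker := by
  let q : H ⧸ N' → H ⧸ N := Quotient.map' id (by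
    intro a b hab
    rw [QuotientGroup.leftRel_apply] at hab ⊢
    exact hle hab)
  have h := psi_ker_mono (G := G) (H := H) q (by
      intro h y
      induction y using QuotientGroup.induction_on with
      | H z => rfl) ((1 : H) : H ⧸ N')
  have hq1 : q ((1 : H) : H ⧸ N') = ((1 : H) : H ⧸ N) := rfl
  rw [hq1] at h
  exact h

omit hP in
theorem psi_ker_mono_one (N : Subgroup H) :
    (psi (G := G) (H := H) ((1 : H) : H ⧸ N)).ker ≤ (psi (G := G) (H := H) (1 : H)).ker :=
  psi_ker_mono (fun h : H => (h : H ⧸ N)) (fun _ _ => rfl) 1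

theorem RWr_mem [Group.ResiduallyFinite H] (hG : P G) (hH : P H) : P (RWr G H) := by
  classical
  -- the index set: finite index normal subgroups, ordered by reverse inclusion
  let ι := (FiniteIndexNormalSubgroup H)ᵒᵈ
  let K : ι → Subgroup (Coprod G H) := fun N =>
    (psi (G := G) ((1 : H) : H ⧸ (OrderDual.ofDual N).toSubgroup)).ker
  have hmono : ∀ i j : ι, i ≤ j → K i ≤ K j := by
    intro i j hij
    have hle : (OrderDual.ofDual j).toSubgroup ≤ (OrderDual.ofDual i).toSubgroup := hij
    exact psi_ker_mono_quot _ _ hle
  have hle : ∀ i : ι, K i ≤ (toRWr : Coprod G H →* RWr G H).ker := by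
    intro i
    have h1 : (toRWr : Coprod G H →* RWr G H).ker = (psi (G := G) (1 : H)).ker := by
      rw [← toReg_ker]
      ext w
      rw [MonoidHom.mem_ker, MonoidHom.mem_ker]
      constructor
      · intro h; exact congrArg Subtype.val h
      · intro h; exact Subtype.ext h
    rw [h1]
    exact psi_ker_mono_one _
  have hne : Nonempty ι := ⟨OrderDual.toDual (FiniteIndexNormalSubgroup.ofSubgroup ⊤)⟩
  refine hP.colim ι (fun i => Coprod G H ⧸ K i)
    (fun i j hij => QuotientGroup.map _ _ (MonoidHom.id _) (hmono i j hij)) (RWr G H)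
    (fun i => QuotientGroup.lift _ toRWr (hle i)) ?_ ?_ ?_ ?_ ?_
    (fun i => quot_mem hP hG hH (OrderDual.ofDual i))
  · intro i x
    induction x using QuotientGroup.induction_on with
    | H z => rfl
  · intro i j k hij hjk x
    induction x using QuotientGroup.induction_on with
    | H z => rfl
  · intro i j hij x
    induction x using QuotientGroup.induction_on with
    | H z => rfl
  · intro y
    obtain ⟨u, hu⟩ := toRWr_surjective y
    exact ⟨hne.some, (u : Coprod G H ⧸ _), hu⟩
  · intro i x hx
    induction x using QuotientGroup.induction_on with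
    | H w =>
      have hw : w ∈ (psi (G := G) (1 : H)).ker := by
        rw [← toReg_ker]
        exact congrArg Subtype.val hx
      obtain ⟨S, hS, -, h2⟩ := exists_support w
      -- a finite index normal subgroup separating the elements of `S`
      have hsep : ∀ T : Finset H, (∀ t ∈ T, t ≠ 1) →
          ∃ N : FiniteIndexNormalSubgroup H, ∀ t ∈ T, t ∉ N.toSubgroup := by
        intro T
        induction T using Finset.induction_on with
        | empty => intro _; exact ⟨OrderDual.ofDual hne.some, by simp⟩
        | insert a T _ ih =>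
          intro hT
          obtain ⟨N, hN⟩ := ih (fun t ht => hT t (Finset.mem_insert_of_mem ht))
          obtain ⟨N', hN'⟩ : ∃ N : FiniteIndexNormalSubgroup H, a ∉ N :=
            Group.residuallyFinite_iff_exists_finiteIndexNormalSubgroup.1 inferInstance a
              (hT a (Finset.mem_insert_self _ _))
          refine ⟨N ⊓ N', ?_⟩
          intro t ht hmem
          rcases Finset.mem_insert.1 ht with rfl | ht
          · exact hN' hmem.2
          · exact hN t ht hmem.1
      obtain ⟨N, hN⟩ := hsep (((hS.toFinset ×ˢ hS.toFinset).filter (fun p => p.1 ≠ p.2)).image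
        (fun p => p.1⁻¹ * p.2)) (by
          intro t ht
          rw [Finset.mem_image] at ht
          obtain ⟨p, hp, rfl⟩ := ht
          rw [Finset.mem_filter] at hp
          intro h1
          exact hp.2 (inv_mul_eq_one.1 h1))
      let j : ι := OrderDual.toDual (OrderDual.ofDual i ⊓ N)
      have hij : i ≤ j := by
        show OrderDual.ofDual i ⊓ N ≤ OrderDual.ofDual i
        exact inf_le_left
      refine ⟨j, hij, ?_⟩
      show ((w : Coprod G H) : Coprod G H ⧸ K j) = 1
      rw [QuotientGroup.eq_one_iff]
      show psi _ w = 1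
      have hk : kap w = 1 := by rw [← psi_right (1 : H), MonoidHom.mem_ker.1 hw]; rfl
      obtain ⟨h3, h4⟩ := h2 (H ⧸ (OrderDual.ofDual j).toSubgroup) ((1 : H) : _) (by
        intro a ha b hb hab
        by_contra hne
        have h5 : a⁻¹ * b ∈ (OrderDual.ofDual j).toSubgroup := by
          have h6 : ((a * 1 : H) : H ⧸ (OrderDual.ofDual j).toSubgroup) = ((b * 1 : H) : _) := hab
          rw [QuotientGroup.eq] at h6
          simpa using h6
        refine hN (a⁻¹ * b) ?_ h5.2
        rw [Finset.mem_image]
        refine ⟨(a, b), ?_, rfl⟩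
        rw [Finset.mem_filter, Finset.mem_product]
        exact ⟨⟨by simpa using ha, by simpa using hb⟩, hne⟩)
      apply PWr.ext
      · funext x
        by_cases hx : ∃ h ∈ S, h • ((1 : H) : H ⧸ (OrderDual.ofDual j).toSubgroup) = x
        · obtain ⟨h, hh, rfl⟩ := hx
          rw [h3 h hh, MonoidHom.mem_ker.1 hw]
          rfl
        · rw [h4 x (fun h hh hcon => hx ⟨h, hh, hcon⟩), hk, map_one]
          rfl
      · rw [psi_right, hk]; rfl

end mem

end Pool.Agent.helper7.Wr
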