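import Pool.Agent.helper7.Wr.Colim

set_option autoImplicit false

/-!
# Internal direct sums of subgroups which are permuted by conjugation
-/

namespace Pool.Agent.helper7.Wr

open Pool.Agent.helper16.FJ

variable {W I : Type} [Group W] [MulAction W I]

/-- The subgroups `A i` are permuted by conjugation in the same way as `W` permutes the indices,
they commute with each other, are independent, and their elements act trivially on the indices. -/
structure Permuted (A : I → Subgroup W) : Prop where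
  /-- conjugation -/
  conj : ∀ (w : W) (i : I) (a : W), a ∈ A i → w * a * w⁻¹ ∈ A (w • i)
  /-- commuting -/
  comm : ∀ i j, i ≠ j → ∀ a ∈ A i, ∀ b ∈ A j, a * b = b * a
  /-- independence -/
  indep : ∀ i, ∀ a ∈ A i, a ∈ (⨆ j : {j : I // j ≠ i}, A j.1) → a = 1
  /-- the sum acts trivially on the indices -/
  triv : ∀ i, ∀ a ∈ A i, ∀ j : I, a • j = j

namespace Permuted

variable {A : I → Subgroup W} (hA : Permuted A)

/-- the sum of the other subgroups -/
def oth (A : I → Subgroup W) (i : I) : Subgroup W := ⨆ j : {j : I // j ≠ i}, A j.1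

omit [MulAction W I] in
theorem le_oth {i j : I} (h : j ≠ i) : A j ≤ oth A i :=
  le_iSup (fun j : {j : I // j ≠ i} => A j.1) ⟨j, h⟩

omit [MulAction W I] in
theorem oth_le (i : I) : oth A i ≤ ⨆ i, A i :=
  iSup_le (fun j => le_iSup A j.1)

include hA

theorem conj_iff (w : W) (i : I) (a : W) : w * a * w⁻¹ ∈ A (w • i) ↔ a ∈ A i := by
  constructor
  · intro h
    have := hA.conj w⁻¹ _ _ h
    rw [inv_smul_smul] at this
    have h2 : w⁻¹ * (w * a * w⁻¹) * w⁻¹⁻¹ = a := by group
    rwa [h2] at this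
  · exact hA.conj w i a

theorem sum_conj (w : W) {n : W} (hn : n ∈ ⨆ i, A i) : w * n * w⁻¹ ∈ ⨆ i, A i := by
  have h1 : (⨆ i, A i) ≤ (⨆ i, A i).comap (MulAut.conj w).toMonoidHom := by
    refine iSup_le ?_
    intro i a ha
    rw [Subgroup.mem_comap]
    exact le_iSup A (w • i) (hA.conj w i a ha)
  exact h1 hn

theorem oth_conj (w : W) (i : I) {n : W} (hn : n ∈ oth A i) : w * n * w⁻¹ ∈ oth A (w • i) := by
  have h1 : oth A i ≤ (oth A (w • i)).comap (MulAut.conj w).toMonoidHom := by
    refine iSup_le ?_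
    rintro ⟨j, hj⟩ a ha
    rw [Subgroup.mem_comap]
    exact le_oth (fun h => hj (MulAction.injective w h)) (hA.conj w j a ha)
  exact h1 hn

theorem comm_oth {i : I} {a n : W} (ha : a ∈ A i) (hn : n ∈ oth A i) : a * n = n * a := by
  have h1 : oth A i ≤ Subgroup.centralizer {a} := by
    refine iSup_le ?_
    rintro ⟨j, hj⟩ b hb
    rw [Subgroup.mem_centralizer_singleton_iff]
    exact (hA.comm i j (Ne.symm hj) a ha b hb).symm
  have := h1 hn
  rw [Subgroup.mem_centralizer_singleton_iff] at this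
  exact this.symm

theorem exists_decomp (i : I) {n : W} (hn : n ∈ ⨆ i, A i) :
    ∃ a ∈ A i, a⁻¹ * n ∈ oth A i := by
  refine Subgroup.iSup_induction A (C := fun n => ∃ a ∈ A i, a⁻¹ * n ∈ oth A i) hn ?_ ?_ ?_
  · intro j b hb
    by_cases h : j = i
    · subst h
      exact ⟨b, hb, by rw [inv_mul_cancel]; exact one_mem _⟩
    · exact ⟨1, one_mem _, by rw [inv_one, one_mul]; exact le_oth h hb⟩
  · exact ⟨1, one_mem _, by simp⟩
  · rintro x y ⟨a, ha, hx⟩ ⟨b, hb, hy⟩
    refine ⟨a * b, mul_mem ha hb, ?_⟩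
    have h1 : (a * b)⁻¹ * (x * y) = (a⁻¹ * x) * (b⁻¹ * y) := by
      have h2 := hA.comm_oth (inv_mem hb) hx
      calc (a * b)⁻¹ * (x * y) = (b⁻¹ * (a⁻¹ * x)) * y := by group
        _ = ((a⁻¹ * x) * b⁻¹) * y := by rw [h2]
        _ = _ := by group
    rw [h1]
    exact mul_mem hx hy

/-- the component -/
noncomputable def compo (i : I) (n : (⨆ i, A i : Subgroup W)) : A i :=
  ⟨Classical.choose (hA.exists_decomp i n.2), (Classical.choose_spec (hA.exists_decomp i n.2)).1⟩

theorem compo_spec (i : I) (n : (⨆ i, A i : Subgroup W)) :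
    ((hA.compo i n : A i) : W)⁻¹ * n ∈ oth A i :=
  (Classical.choose_spec (hA.exists_decomp i n.2)).2

theorem compo_unique (i : I) (n : (⨆ i, A i : Subgroup W)) {a : W} (ha : a ∈ A i)
    (h : a⁻¹ * n ∈ oth A i) : ((hA.compo i n : A i) : W) = a := by
  have h1 := hA.compo_spec i n
  have h2 : a⁻¹ * (hA.compo i n : A i) ∈ oth A i := by
    have := mul_mem h (inv_mem h1)
    have h3 : a⁻¹ * (n : W) * (((hA.compo i n : A i) : W)⁻¹ * n)⁻¹ = a⁻¹ * (hA.compo i n : A i) := by
      group
    rwa [h3] at this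
  have h3 := hA.indep i _ (mul_mem (inv_mem ha) (hA.compo i n).2) h2
  rw [inv_mul_eq_one] at h3
  exact h3.symm

theorem compo_mul (i : I) (m n : (⨆ i, A i : Subgroup W)) :
    hA.compo i (m * n) = hA.compo i m * hA.compo i n := by
  apply Subtype.ext
  apply hA.compo_unique
  · exact (hA.compo i m * hA.compo i n).2
  · have h1 : ((hA.compo i m * hA.compo i n : A i) : W)⁻¹ * ((m * n : (⨆ i, A i : Subgroup W)) : W)
        = (((hA.compo i m : A i) : W)⁻¹ * m) * (((hA.compo i n : A i) : W)⁻¹ * n) := by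
      have h2 := hA.comm_oth (inv_mem (hA.compo i n).2) (hA.compo_spec i m)
      calc _ = (((hA.compo i n : A i) : W)⁻¹ * (((hA.compo i m : A i) : W)⁻¹ * m)) * n := by
            rw [Subgroup.coe_mul, Subgroup.coe_mul]; group
        _ = ((((hA.compo i m : A i) : W)⁻¹ * m) * ((hA.compo i n : A i) : W)⁻¹) * n := by rw [h2]
        _ = _ := by group
    rw [h1]
    exact mul_mem (hA.compo_spec i m) (hA.compo_spec i n)

theorem compo_of_mem_oth (i : I) (n : (⨆ i, A i : Subgroup W)) (h : (n : W) ∈ oth A i) :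
    hA.compo i n = 1 := by
  apply Subtype.ext
  apply hA.compo_unique
  · exact one_mem _
  · simpa using h

theorem compo_self (i : I) (n : (⨆ i, A i : Subgroup W)) (h : (n : W) ∈ A i) :
    ((hA.compo i n : A i) : W) = n := by
  apply hA.compo_unique
  · exact h
  · rw [inv_mul_cancel]; exact one_mem _

theorem compo_one (i : I) : hA.compo i 1 = 1 :=
  hA.compo_of_mem_oth i 1 (one_mem _)

/-- conjugation and components -/
theorem compo_conj (w : W) (i : I) (n : (⨆ i, A i : Subgroup W)) :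
    ((hA.compo (w • i) ⟨w * n * w⁻¹, hA.sum_conj w n.2⟩ : A (w • i)) : W) =
      w * (hA.compo i n : A i) * w⁻¹ := by
  apply hA.compo_unique
  · exact hA.conj w i _ (hA.compo i n).2
  · have h := hA.oth_conj w i (hA.compo_spec i n)
    have h1 : (w * (hA.compo i n : A i) * w⁻¹)⁻¹ * (w * (n : W) * w⁻¹) =
        w * (((hA.compo i n : A i) : W)⁻¹ * n) * w⁻¹ := by group
    show (w * (hA.compo i n : A i) * w⁻¹)⁻¹ * (w * (n : W) * w⁻¹) ∈ _
    rw [h1]
    exact h

/-- finite support -/
theorem compo_finite (n : (⨆ i, A i : Subgroup W)) : {i | hA.compo i n ≠ 1}.Finite := by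
  obtain ⟨n, hn⟩ := n
  refine Subgroup.iSup_induction' A
    (C := fun n hn => {i | hA.compo i (⟨n, hn⟩ : (⨆ i, A i : Subgroup W)) ≠ 1}.Finite)
    ?_ ?_ ?_ hn
  · intro j b hb
    refine (Set.finite_singleton j).subset ?_
    intro i hi
    rw [Set.mem_singleton_iff]
    by_contra hij
    exact hi (hA.compo_of_mem_oth i _ (le_oth (Ne.symm hij) hb))
  · refine Set.finite_empty.subset ?_
    intro i hi
    exact hi (hA.compo_one i)
  · intro x y hx hy h1 h2
    refine (h1.union h2).subset ?_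
    intro i hi
    by_contra hcon
    rw [Set.mem_union, not_or] at hcon
    simp only [Set.mem_ofPred_eq, not_not] at hcon
    apply hi
    have := hA.compo_mul i ⟨x, hx⟩ ⟨y, hy⟩
    rw [hcon.1, hcon.2, mul_one] at this
    exact this

omit hA [MulAction W I] in
theorem mem_sup_of_comm {K L : Subgroup W} (h : ∀ a ∈ K, ∀ b ∈ L, a * b = b * a) {x : W}
    (hx : x ∈ K ⊔ L) : ∃ a ∈ K, ∃ b ∈ L, a * b = x := by
  let M : Subgroup W :=
    { carrier := {x | ∃ a ∈ K, ∃ b ∈ L, a * b = x}
      one_mem' := ⟨1, one_mem _, 1, one_mem _, one_mul 1⟩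
      mul_mem' := by
        rintro x y ⟨a, ha, b, hb, rfl⟩ ⟨c, hc, d, hd, rfl⟩
        refine ⟨a * c, mul_mem ha hc, b * d, mul_mem hb hd, ?_⟩
        calc a * c * (b * d) = a * (c * b) * d := by group
          _ = a * (b * c) * d := by rw [h c hc b hb]
          _ = _ := by group
      inv_mem' := by
        rintro x ⟨a, ha, b, hb, rfl⟩
        refine ⟨a⁻¹, inv_mem ha, b⁻¹, inv_mem hb, ?_⟩
        rw [mul_inv_rev, h a⁻¹ (inv_mem ha) b⁻¹ (inv_mem hb)] }
  have h1 : K ⊔ L ≤ M := by
    refine sup_le ?_ ?_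
    · intro a ha; exact ⟨a, ha, 1, one_mem _, mul_one a⟩
    · intro b hb; exact ⟨1, one_mem _, b, hb, one_mul b⟩
  exact h1 hx

/-- an element with trivial components is trivial -/
theorem eq_one_of_compo (n : (⨆ i, A i : Subgroup W)) (h : ∀ i, hA.compo i n = 1) :
    (n : W) = 1 := by
  classical
  -- elements of finite subsums
  have h1 : ∀ S : Finset I, ∀ n : (⨆ i, A i : Subgroup W),
      (n : W) ∈ (⨆ i : S, A i.1 : Subgroup W) →
      (∀ i, hA.compo i n = 1) → (n : W) = 1 := by
    intro S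
    induction S using Finset.induction_on with
    | empty =>
      intro n hn _
      have : (⨆ i : (∅ : Finset I), A i.1 : Subgroup W) ≤ ⊥ :=
        iSup_le (fun i => absurd i.2 (Finset.notMem_empty _))
      exact (Subgroup.mem_bot).1 (this hn)
    | insert a S ha ih =>
      intro n hn hc
      have hle : (⨆ i : (insert a S : Finset I), A i.1 : Subgroup W) ≤
          A a ⊔ ⨆ i : S, A i.1 := by
        refine iSup_le ?_
        rintro ⟨i, hi⟩
        rcases Finset.mem_insert.1 hi with rfl | hi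
        · exact le_sup_left
        · exact le_trans (le_iSup (fun i : S => A i.1) ⟨i, hi⟩) le_sup_right
      have hle2 : (⨆ i : S, A i.1 : Subgroup W) ≤ oth A a :=
        iSup_le (fun i => le_oth (fun h => ha (h ▸ i.2)))
      obtain ⟨c, hcA, m, hm, hcm⟩ := mem_sup_of_comm
        (fun x hx y hy => hA.comm_oth hx (hle2 hy)) (hle hn)
      have hc1 : c = 1 := by
        have h2 := hA.compo_unique a n hcA (by
          rw [← hcm]
          have : c⁻¹ * (c * m) = m := by group
          rw [this]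
          exact hle2 hm)
        rw [hc a] at h2
        exact h2.symm
      rw [hc1, one_mul] at hcm
      exact ih n (hcm ▸ hm) hc
  -- every element is in a finite subsum
  have h2 : ∃ S : Finset I, (n : W) ∈ (⨆ i : S, A i.1 : Subgroup W) := by
    refine Subgroup.iSup_induction A
      (C := fun n => ∃ S : Finset I, n ∈ (⨆ i : S, A i.1 : Subgroup W)) n.2 ?_ ?_ ?_
    · intro i x hx
      exact ⟨{i}, (le_iSup (fun i : ({i} : Finset I) => A i.1) ⟨i, by simp⟩) hx⟩
    · exact ⟨∅, one_mem _⟩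
    · rintro x y ⟨S, hS⟩ ⟨T, hT⟩
      refine ⟨S ∪ T, mul_mem ?_ ?_⟩
      · exact (iSup_le (fun i => le_iSup (fun i : ((S ∪ T : Finset I)) => A i.1)
          ⟨i.1, Finset.mem_union_left _ i.2⟩) : (⨆ i : S, A i.1) ≤ _) hS
      · exact (iSup_le (fun i => le_iSup (fun i : ((S ∪ T : Finset I)) => A i.1)
          ⟨i.1, Finset.mem_union_right _ i.2⟩) : (⨆ i : T, A i.1) ≤ _) hT
  obtain ⟨S, hS⟩ := h2
  exact h1 S n hS h

end Permuted

end Pool.Agent.helper7.Wr
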