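import Pool.Agent.helper7.Wr.Main

set_option autoImplicit false

/-!
# Restricted permutational wreath products
-/

namespace Pool.Agent.helper7.Wr

open Pool.Agent.helper16.FJ

variable {G X H : Type} [Group G] [Group H] [MulAction H X]

/-- the restricted permutational wreath product -/
def Rst (G X H : Type) [Group G] [Group H] [MulAction H X] : Subgroup (PWr G X H) where
  carrier := {w | {x | w.left x ≠ 1}.Finite}
  one_mem' := by simp
  mul_mem' := by
    intro a b ha hb
    have h1 : {x | b.left (a.right⁻¹ • x) ≠ 1}.Finite :=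
      Set.Finite.preimage (f := fun x => a.right⁻¹ • x)
        (fun _ _ _ _ h => MulAction.injective _ h) hb
    refine (ha.union h1).subset ?_
    intro x hx
    by_contra hcon
    rw [Set.mem_union, not_or] at hcon
    simp only [Set.mem_ofPred_eq, not_not] at hcon
    apply hx
    show a.left x * b.left (a.right⁻¹ • x) = 1
    rw [hcon.1, hcon.2, mul_one]
  inv_mem' := by
    intro a ha
    have h1 : {x | a.left (a.right • x) ≠ 1}.Finite :=
      Set.Finite.preimage (f := fun x => a.right • x)
        (fun _ _ _ _ h => MulAction.injective _ h) ha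
    refine h1.subset ?_
    intro x hx hcon
    apply hx
    show (a.left (a.right • x))⁻¹ = 1
    rw [hcon, inv_one]

theorem mem_Rst {w : PWr G X H} : w ∈ Rst G X H ↔ {x | w.left x ≠ 1}.Finite := Iff.rfl

/-- the action on the index set -/
instance rstAct : MulAction (Rst G X H) X where
  smul w x := w.1.right • x
  one_smul x := one_smul H x
  mul_smul a b x := mul_smul a.1.right b.1.right x

theorem rst_smul (w : Rst G X H) (x : X) : w • x = w.1.right • x := rfl

/-- the copy of `G` at `x` -/
def atx (x : X) : Subgroup (Rst G X H) where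
  carrier := {w | w.1.right = 1 ∧ ∀ y, y ≠ x → w.1.left y = 1}
  one_mem' := ⟨rfl, fun _ _ => rfl⟩
  mul_mem' := by
    rintro a b ⟨ha, ha'⟩ ⟨hb, hb'⟩
    refine ⟨?_, ?_⟩
    · show a.1.right * b.1.right = 1
      rw [ha, hb, mul_one]
    · intro y hy
      show a.1.left y * b.1.left (a.1.right⁻¹ • y) = 1
      rw [ha, inv_one, one_smul, ha' y hy, hb' y hy, mul_one]
  inv_mem' := by
    rintro a ⟨ha, ha'⟩
    refine ⟨?_, ?_⟩
    · show a.1.right⁻¹ = 1
      rw [ha, inv_one]
    · intro y hy
      show (a.1.left (a.1.right • y))⁻¹ = 1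
      rw [ha, one_smul, ha' y hy, inv_one]

theorem mem_atx {x : X} {w : Rst G X H} :
    w ∈ atx x ↔ w.1.right = 1 ∧ ∀ y, y ≠ x → w.1.left y = 1 := Iff.rfl

/-- elements over `1` which are trivial at `x` -/
def offx (x : X) : Subgroup (Rst G X H) where
  carrier := {w | w.1.right = 1 ∧ w.1.left x = 1}
  one_mem' := ⟨rfl, rfl⟩
  mul_mem' := by
    rintro a b ⟨ha, ha'⟩ ⟨hb, hb'⟩
    refine ⟨?_, ?_⟩
    · show a.1.right * b.1.right = 1
      rw [ha, hb, mul_one]
    · show a.1.left x * b.1.left (a.1.right⁻¹ • x) = 1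
      rw [ha, inv_one, one_smul, ha', hb', mul_one]
  inv_mem' := by
    rintro a ⟨ha, ha'⟩
    refine ⟨?_, ?_⟩
    · show a.1.right⁻¹ = 1
      rw [ha, inv_one]
    · show (a.1.left (a.1.right • x))⁻¹ = 1
      rw [ha, one_smul, ha', inv_one]

theorem mem_offx {x : X} {w : Rst G X H} :
    w ∈ offx x ↔ w.1.right = 1 ∧ w.1.left x = 1 := Iff.rfl

theorem rst_induct (S : Finset X) (T : Subgroup (Rst G X H)) (hT : ∀ x ∈ S, atx x ≤ T) :
    ∀ w : Rst G X H, w.1.right = 1 → (∀ y, y ∉ S → w.1.left y = 1) → w ∈ T := by
  classical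
  induction S using Finset.induction_on with
  | empty =>
    intro w hw hw'
    have h1 : w = 1 := by
      apply Subtype.ext
      apply PWr.ext
      · funext y
        exact hw' y (by simp)
      · exact hw
    rw [h1]
    exact one_mem _
  | insert a S ha ih =>
    intro w hw hw'
    have hcf : {x | (⟨fun y => if y = a then w.1.left y else 1, 1⟩ : PWr G X H).left x ≠
        1}.Finite := by
      refine (Set.finite_singleton a).subset ?_
      intro x hx
      by_contra hcon
      exact hx (if_neg hcon)
    let c : Rst G X H := ⟨⟨fun y => if y = a then w.1.left y else 1, 1⟩, hcf⟩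
    have hc : c ∈ atx a := ⟨rfl, fun y hy => if_neg hy⟩
    have h1 : c⁻¹ * w ∈ T := by
      refine ih (fun x hx => hT x (Finset.mem_insert_of_mem hx)) _ ?_ ?_
      · show (1 : H)⁻¹ * w.1.right = 1
        rw [hw, inv_one, mul_one]
      · intro y hy
        show ((if (1 : H) • y = a then w.1.left ((1 : H) • y) else 1) : G)⁻¹ *
          w.1.left (((1 : H)⁻¹)⁻¹ • y) = 1
        rw [inv_one, inv_one, one_smul]
        by_cases hya : y = a
        · rw [if_pos hya, inv_mul_cancel]
        · rw [if_neg hya, hw' y (by simp [hya, hy])]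
          simp
    have h2 := mul_mem (hT a (Finset.mem_insert_self a S) hc) h1
    rwa [mul_inv_cancel_left] at h2

theorem rst_mem_iSup (w : Rst G X H) (hw : w.1.right = 1) :
    w ∈ (⨆ x, atx x : Subgroup (Rst G X H)) := by
  have h := w.2
  rw [mem_Rst] at h
  refine rst_induct h.toFinset _ (fun x _ => le_iSup _ x) w hw ?_
  intro y hy
  by_contra hcon
  exact hy (by simpa using hcon)

theorem rst_mem_oth (x : X) (w : Rst G X H) (hw : w.1.right = 1) (hx : w.1.left x = 1) :
    w ∈ Permuted.oth (atx : X → Subgroup (Rst G X H)) x := by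
  have h := w.2
  rw [mem_Rst] at h
  refine rst_induct h.toFinset _ ?_ w hw ?_
  · intro y hy
    apply Permuted.le_oth
    rintro rfl
    simp only [Set.Finite.mem_toFinset, Set.mem_ofPred_eq] at hy
    exact hy hx
  · intro y hy
    by_contra hcon
    exact hy (by simpa using hcon)

theorem rst_permuted : Permuted (atx : X → Subgroup (Rst G X H)) where
  conj := by
    rintro w x a ⟨ha, ha'⟩
    refine ⟨?_, ?_⟩
    · show w.1.right * a.1.right * w.1.right⁻¹ = 1
      rw [ha, mul_one, mul_inv_cancel]
    · intro y hy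
      show w.1.left y * a.1.left (w.1.right⁻¹ • y) *
        (w.1.left (w.1.right • (w.1.right * a.1.right)⁻¹ • y))⁻¹ = 1
      rw [ha, mul_one, smul_inv_smul, ha', mul_one, mul_inv_cancel]
      rintro rfl
      apply hy
      rw [rst_smul, smul_inv_smul]
  comm := by
    rintro x y hxy a ⟨ha, ha'⟩ b ⟨hb, hb'⟩
    apply Subtype.ext
    apply PWr.ext
    · funext z
      show a.1.left z * b.1.left (a.1.right⁻¹ • z) = b.1.left z * a.1.left (b.1.right⁻¹ • z)
      rw [ha, hb, inv_one, one_smul]
      by_cases hzx : z = x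
      · subst hzx
        rw [hb' z hxy, mul_one, one_mul]
      · rw [ha' z hzx, mul_one, one_mul]
    · show a.1.right * b.1.right = b.1.right * a.1.right
      rw [ha, hb]
  indep := by
    rintro x a ⟨ha, ha'⟩ h
    have h1 : (⨆ j : {j : X // j ≠ x}, atx j.1 : Subgroup (Rst G X H)) ≤ offx x := by
      refine iSup_le ?_
      rintro ⟨j, hj⟩ b ⟨hb, hb'⟩
      exact ⟨hb, hb' x (Ne.symm hj)⟩
    have h2 := h1 h
    apply Subtype.ext
    apply PWr.ext
    · funext z
      by_cases hz : z = x
      · rw [hz]; exact h2.2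
      · exact ha' z hz
    · exact ha
  triv := by
    rintro x a ⟨ha, _⟩ y
    rw [rst_smul, ha, one_smul]

theorem Rst_mem {P : ∀ (G : Type) [Group G], Prop} (hP : Inherit P) (hX : ExtClosed P)
    (hG : P G) (hH : P H) : P (Rst G X H) := by
  refine (rst_permuted (G := G) (X := X) (H := H)).mem hP hX hH
    (PWr.rightHom.comp (Rst G X H).subtype) ?_ ?_
  · apply le_antisymm
    · intro w hw
      exact rst_mem_iSup w hw
    · refine iSup_le ?_
      rintro x w ⟨hw, _⟩
      exact hw
  · intro x
    refine ⟨G × H, inferInstance,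
      { toFun := fun w => (w.1.1.left x, w.1.1.right)
        map_one' := rfl
        map_mul' := ?_ }, hP.prod _ _ hG hH, ?_⟩
    · intro a b
      apply Prod.ext
      · show a.1.1.left x * b.1.1.left (a.1.1.right⁻¹ • x) = a.1.1.left x * b.1.1.left x
        have h1 : a.1.1.right • x = x := a.2
        have h2 : a.1.1.right⁻¹ • x = x := by
          rw [inv_smul_eq_iff, h1]
        rw [h2]
      · rfl
    · intro w hw
      have h1 := congrArg Prod.fst hw
      have h2 := congrArg Prod.snd hw
      exact rst_mem_oth x w.1 h2 h1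

/-- the regular case -/
theorem Rst_of_RWr {P : ∀ (G : Type) [Group G], Prop} (hP : Inherit P)
    (h : P (RWr G H)) : P (Rst G H H) := by
  refine hP.of_injective (G := RWr G H)
    { toFun := fun w => ⟨⟨w.1.left, w.1.right⟩, w.2⟩
      map_one' := rfl
      map_mul' := fun _ _ => rfl } ?_ h
  intro a b hab
  have h1 := congrArg (fun w : RWr G H => w.1.left) hab
  have h2 := congrArg (fun w : RWr G H => w.1.right) hab
  apply Subtype.ext
  exact PWr.ext h1 h2

end Pool.Agent.helper7.Wr
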