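import Pool.Agent.helper7.Wr.Main

set_option autoImplicit false

/-!
# Wreath products and permuted direct sums in the class of Farrell-Jones groups

`FJClosed P` says that the class `P` has the inheritance properties which the problem file lists
for the class of Farrell-Jones groups, and the extension property, which is also a known property
of that class: a group `G` with a homomorphism `f : G → Q` to a group of the class is in the class
if the preimages of the virtually cyclic subgroups of `Q` are.

Theorem. Let `W` be a group with a normal subgroup `N` which is the direct sum of subgroups `A i`
which `W` permutes by conjugation. If `W / N` is in the class, and `Stab(i)` modulo the sum of the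
`A j`, `j ≠ i`, is in the class for every `i`, then `W` is in the class. Examples are all restricted
permutational wreath products `G ≀_X H` of groups of the class (`Stab(x)` modulo the other factors
is a subgroup of `G × H`) and all wreath-like products of groups of the class (`Stab(i) = N`).

Outline of the proof. By the extension property one has to treat the preimage of a cyclic group,
generated by `N` and one element `t`. It is a directed union of subgroups generated by `t` and
finitely many `A i`; up to finite index `t` fixes `i` or moves it to infinitely many places. Such a
group is a subgroup of a product of quotients; one of them embeds in a restricted wreath product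
`G ≀ ℤ`, the others are handled with the hypothesis on the stabilizers. Finally `G ≀ H` is in the
class for every residually finite group `H` in the class: for a normal subgroup `N` of finite index
in `H` let `Ψ_N` be the homomorphism from `G * H` to the permutational wreath product of `G * H`
over the finite set `H / N` which sends `h` to the permutation `h` and `g` to the function with
value `g` at the class of `1`. The kernel of `G * H → G ≀ H` is the directed union of the kernels
of the `Ψ_N`, and the image of `Ψ_N` is in the class.
-/

namespace Pool.Agent.helper7.Wr.PermutedDirectSumsVariant

open Pool.Agent.helper16.FJ Pool.Agent.helper7.Wr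

/-- A class of (discrete) groups with known inheritance properties of the class of Farrell-Jones
groups: it contains the finite groups and the infinite cyclic group (which are hyperbolic), it is
closed under subgroups, finite direct products, free products, finite-index overgroups, and
colimits over directed systems with arbitrary structure maps, and it has the extension property. -/
structure FJClosed (P : ∀ (G : Type) [Group G], Prop) : Prop where
  /-- finite groups -/
  finite : ∀ (G : Type) [Group G], Finite G → P G
  /-- the infinite cyclic group -/
  int : P (Multiplicative ℤ)
  /-- subgroups -/
  subgroup : ∀ (G : Type) [Group G], P G → ∀ H : Subgroup G, P H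
  /-- direct products -/
  prod : ∀ (G H : Type) [Group G] [Group H], P G → P H → P (G × H)
  /-- free products -/
  coprod : ∀ (G H : Type) [Group G] [Group H], P G → P H → P (Monoid.Coprod G H)
  /-- overgroups of finite index -/
  overgroup : ∀ (G : Type) [Group G] (H : Subgroup G), H.FiniteIndex → P H → P G
  /-- directed colimits: `L` with the maps `φ i` is a colimit of the directed system `(G, f)` when
  the `φ i` are compatible with the `f i j`, jointly surjective, and an element of `G i` dies in
  `L` only if it dies in some `G j`. -/
  colim : ∀ (ι : Type) [Preorder ι] [Nonempty ι] [IsDirectedOrder ι]
    (G : ι → Type) [∀ i, Group (G i)] (f : ∀ i j, i ≤ j → G i →* G j)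
    (L : Type) [Group L] (φ : ∀ i, G i →* L),
    (∀ i x, f i i le_rfl x = x) →
    (∀ i j k (hij : i ≤ j) (hjk : j ≤ k) x, f j k hjk (f i j hij x) = f i k (hij.trans hjk) x) →
    (∀ i j (h : i ≤ j) x, φ j (f i j h x) = φ i x) →
    (∀ y : L, ∃ i x, φ i x = y) →
    (∀ i x, φ i x = 1 → ∃ j, ∃ h : i ≤ j, f i j h x = 1) →
    (∀ i, P (G i)) → P L
  /-- the extension property: if `Q` and the preimages of all virtually cyclic subgroups of `Q`
  are in the class, then the source of the homomorphism is in the class -/
  extension : ∀ (G Q : Type) [Group G] [Group Q] (f : G →* Q), P Q →
    (∀ C : Subgroup Q, (∃ Z : Subgroup C, Z.FiniteIndex ∧ IsCyclic Z) → P (C.comap f)) → P G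

/-- The subgroups `A i` of `W` form a permuted direct sum: conjugation by `w` maps `A i` into
`A (w • i)`, different `A i` commute and their product is direct, and the elements of the `A i`
act trivially on the indices. -/
structure PermutedSum {W I : Type} [Group W] [MulAction W I] (A : I → Subgroup W) : Prop where
  /-- conjugation -/
  conj : ∀ (w : W) (i : I) (a : W), a ∈ A i → w * a * w⁻¹ ∈ A (w • i)
  /-- commuting -/
  comm : ∀ i j, i ≠ j → ∀ a ∈ A i, ∀ b ∈ A j, a * b = b * a
  /-- independence -/
  indep : ∀ i, ∀ a ∈ A i, a ∈ (⨆ j : {j : I // j ≠ i}, A j.1) → a = 1
  /-- the subgroups act trivially on the indices -/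
  triv : ∀ i, ∀ a ∈ A i, ∀ j : I, a • j = j

theorem FJClosed.inherit {P : ∀ (G : Type) [Group G], Prop} (h : FJClosed P) : Inherit P where
  finite := h.finite
  int := h.int
  subgroup := h.subgroup
  prod := h.prod
  coprod := h.coprod
  overgroup := h.overgroup
  colim := h.colim

theorem PermutedSum.permuted {W I : Type} [Group W] [MulAction W I] {A : I → Subgroup W}
    (h : PermutedSum A) : Permuted A where
  conj := h.conj
  comm := h.comm
  indep := h.indep
  triv := h.triv

/-- Let `P` be a class of groups with the inheritance properties `FJClosed` of the class of
Farrell-Jones groups. Let the group `W` act on a set `I` and let `A i`, `i ∈ I`, be subgroups of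
`W` which form a permuted direct sum and generate the kernel of a homomorphism from `W` to a group
of the class. Suppose that for every `i` there is a homomorphism `ρ` from the stabilizer of `i` to
a group of the class such that the kernel of `ρ` is contained in the subgroup generated by the
`A j`, `j ≠ i`. Then `W` is in the class. -/
theorem result (P : ∀ (G : Type) [Group G], Prop) (hP : FJClosed P)
    (W I Q : Type) [Group W] [Group Q] [MulAction W I] (A : I → Subgroup W) (f : W →* Q)
    (hA : PermutedSum A) (hf : f.ker = ⨆ i, A i) (hQ : P Q)
    (hE : ∀ i, ∃ (E : Type) (_ : Group E) (ρ : MulAction.stabilizer W i →* E), P E ∧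
      ∀ x, ρ x = 1 → (x : W) ∈ (⨆ j : {j : I // j ≠ i}, A j.1)) :
    P W :=
  hA.permuted.mem hP.inherit hP.extension hQ f hf hE

end Pool.Agent.helper7.Wr.PermutedDirectSumsVariant
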