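import Pool.Agent.helper7.Wr.Internal

set_option autoImplicit false

/-!
# Extensions of permuted direct sums by an infinite cyclic group
-/

namespace Pool.Agent.helper7.Wr

open Pool.Agent.helper16.FJ

variable {W I : Type} [Group W] [MulAction W I]

namespace Permuted

variable {A : I → Subgroup W} (hA : Permuted A)

include hA

theorem compo_conj' (w : W) {i i' : I} (hi : i' = w • i) {n n' : (⨆ i, A i : Subgroup W)}
    (hn : (n' : W) = w * n * w⁻¹) :
    ((hA.compo i' n' : A i') : W) = w * (hA.compo i n : A i) * w⁻¹ := by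
  subst hi
  have h1 : n' = ⟨w * n * w⁻¹, hA.sum_conj w n.2⟩ := Subtype.ext hn
  rw [h1]
  exact hA.compo_conj w i n

/-- the subgroup generated by the sum and `t` -/
def VT (t : W) : Subgroup W where
  carrier := {v | ∃ k : ℤ, v * t ^ (-k) ∈ ⨆ i, A i}
  one_mem' := ⟨0, by simp⟩
  mul_mem' := by
    rintro v w ⟨k, hk⟩ ⟨l, hl⟩
    refine ⟨k + l, ?_⟩
    have h1 := mul_mem hk (hA.sum_conj (t ^ k) hl)
    have h2 : v * t ^ (-k) * (t ^ k * (w * t ^ (-l)) * (t ^ k)⁻¹) = v * w * t ^ (-(k + l)) := by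
      group
    rwa [h2] at h1
  inv_mem' := by
    rintro v ⟨k, hk⟩
    refine ⟨-k, ?_⟩
    have h1 := hA.sum_conj (t ^ (-k)) (inv_mem hk)
    have h2 : t ^ (-k) * (v * t ^ (-k))⁻¹ * (t ^ (-k))⁻¹ = v⁻¹ * t ^ (- -k) := by
      group
    rwa [h2] at h1

theorem mem_VT {t v : W} : v ∈ hA.VT t ↔ ∃ k : ℤ, v * t ^ (-k) ∈ ⨆ i, A i := Iff.rfl

theorem t_mem_VT (t : W) : t ∈ hA.VT t := ⟨1, by simp⟩

theorem sum_le_VT (t : W) : (⨆ i, A i) ≤ hA.VT t := fun x hx => ⟨0, by simpa using hx⟩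

/-- elements of the sum act trivially -/
theorem sum_triv {n : W} (hn : n ∈ ⨆ i, A i) (j : I) : n • j = j := by
  have h1 : (⨆ i, A i) ≤ MulAction.stabilizer W j := by
    refine iSup_le ?_
    intro i a ha
    exact hA.triv i a ha j
  exact h1 hn

section inf

variable (t : W) (ht : ∀ k : ℤ, t ^ k ∈ (⨆ i, A i : Subgroup W) → k = 0)

/-- exponent -/
noncomputable def ex (v : hA.VT t) : ℤ := Classical.choose v.2

theorem ex_spec (v : hA.VT t) : (v : W) * t ^ (-(hA.ex t v)) ∈ ⨆ i, A i :=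
  Classical.choose_spec v.2

/-- the part in the sum -/
noncomputable def np (v : hA.VT t) : (⨆ i, A i : Subgroup W) :=
  ⟨(v : W) * t ^ (-(hA.ex t v)), hA.ex_spec t v⟩

include ht

theorem ex_unique (v : hA.VT t) (k : ℤ) (hk : (v : W) * t ^ (-k) ∈ ⨆ i, A i) :
    hA.ex t v = k := by
  have h1 := mul_mem (inv_mem hk) (hA.ex_spec t v)
  have h2 : ((v : W) * t ^ (-k))⁻¹ * ((v : W) * t ^ (-(hA.ex t v))) = t ^ (k - hA.ex t v) := by
    group
  rw [h2] at h1
  have := ht _ h1
  omega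

theorem ex_mul (v w : hA.VT t) : hA.ex t (v * w) = hA.ex t v + hA.ex t w := by
  apply hA.ex_unique t ht
  have h1 := mul_mem (hA.ex_spec t v) (hA.sum_conj (t ^ (hA.ex t v)) (hA.ex_spec t w))
  have h2 : (v : W) * t ^ (-(hA.ex t v)) *
      (t ^ (hA.ex t v) * ((w : W) * t ^ (-(hA.ex t w))) * (t ^ (hA.ex t v))⁻¹) =
      ((v * w : hA.VT t) : W) * t ^ (-(hA.ex t v + hA.ex t w)) := by
    rw [Subgroup.coe_mul]
    group
  rwa [h2] at h1

theorem np_mul (v w : hA.VT t) : ((hA.np t (v * w) : (⨆ i, A i : Subgroup W)) : W) =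
    (hA.np t v : (⨆ i, A i : Subgroup W)) *
      (t ^ (hA.ex t v) * (hA.np t w : (⨆ i, A i : Subgroup W)) * (t ^ (hA.ex t v))⁻¹) := by
  show ((v * w : hA.VT t) : W) * t ^ (-(hA.ex t (v * w))) = (v : W) * t ^ (-(hA.ex t v)) *
      (t ^ (hA.ex t v) * ((w : W) * t ^ (-(hA.ex t w))) * (t ^ (hA.ex t v))⁻¹)
  rw [hA.ex_mul t ht, Subgroup.coe_mul]
  group

omit ht in
theorem left_mem (v : hA.VT t) (j : I) (l : ℤ) :
    t ^ (-l) * (hA.compo (t ^ l • j) (hA.np t v) : A (t ^ l • j)) * t ^ l ∈ A j := by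
  have h1 := hA.conj (t ^ (-l)) _ _ (hA.compo (t ^ l • j) (hA.np t v)).2
  rw [← mul_smul, ← zpow_add, neg_add_cancel, zpow_zero, one_smul] at h1
  have h2 : (t ^ (-l))⁻¹ = t ^ l := by group
  rwa [h2] at h1

/-- the homomorphism to the wreath product with `ℤ` belonging to `j` -/
noncomputable def beta (j : I) : hA.VT t →* RegularWreathProduct (A j) (Multiplicative ℤ) :=
  MonoidHom.mk' (fun v => ⟨fun l => ⟨_, hA.left_mem t v j (Multiplicative.toAdd l)⟩,
    Multiplicative.ofAdd (hA.ex t v)⟩) (by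
    intro v w
    apply RegularWreathProduct.ext
    · funext l
      obtain ⟨l, rfl⟩ := Multiplicative.ofAdd.surjective l
      apply Subtype.ext
      rw [RegularWreathProduct.mul_left]
      simp only [toAdd_ofAdd, Pi.mul_apply, Subgroup.coe_mul]
      have h0 : Multiplicative.toAdd ((Multiplicative.ofAdd (hA.ex t v))⁻¹ * Multiplicative.ofAdd l)
          = -hA.ex t v + l := rfl
      rw [h0]
      -- the conjugate of the second part
      let m : (⨆ i, A i : Subgroup W) :=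
        ⟨t ^ (hA.ex t v) * (hA.np t w : (⨆ i, A i : Subgroup W)) * (t ^ (hA.ex t v))⁻¹,
          hA.sum_conj _ (hA.np t w).2⟩
      have h1 : hA.np t (v * w) = hA.np t v * m := Subtype.ext (hA.np_mul t ht v w)
      rw [h1, hA.compo_mul, Subgroup.coe_mul]
      have h2 : ((hA.compo (t ^ l • j) m : A (t ^ l • j)) : W) = t ^ (hA.ex t v) *
          (hA.compo (t ^ (-hA.ex t v + l) • j) (hA.np t w) : A (t ^ (-hA.ex t v + l) • j)) *
          (t ^ (hA.ex t v))⁻¹ := by
        apply hA.compo_conj'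
        · rw [← mul_smul, ← zpow_add]
          congr 2
          ring
        · rfl
      rw [h2]
      group
    · show Multiplicative.ofAdd (hA.ex t (v * w)) = _
      rw [hA.ex_mul t ht]
      rfl)

theorem beta_left (j : I) (v : hA.VT t) (l : ℤ) :
    ((((hA.beta t ht j v).left (Multiplicative.ofAdd l) : A j)) : W) =
      t ^ (-l) * (hA.compo (t ^ l • j) (hA.np t v) : A (t ^ l • j)) * t ^ l := rfl

theorem beta_mem (j : I) (hj : ∀ k : ℤ, t ^ k • j = j → k = 0) (v : hA.VT t) :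
    hA.beta t ht j v ∈ RWr (A j) (Multiplicative ℤ) := by
  rw [mem_RWr]
  have hinj : Function.Injective (fun l : Multiplicative ℤ => t ^ (Multiplicative.toAdd l) • j) := by
    intro a b hab
    obtain ⟨a, rfl⟩ := Multiplicative.ofAdd.surjective a
    obtain ⟨b, rfl⟩ := Multiplicative.ofAdd.surjective b
    have h1 : t ^ a • j = t ^ b • j := hab
    have h2 : t ^ (-b + a) • j = j := by
      rw [zpow_add, mul_smul, h1, ← mul_smul, ← zpow_add, neg_add_cancel, zpow_zero, one_smul]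
    have := hj _ h2
    have h3 : a = b := by omega
    rw [h3]
  refine ((hA.compo_finite (hA.np t v)).preimage (hinj.injOn)).subset ?_
  intro l hl hcon
  obtain ⟨l, rfl⟩ := Multiplicative.ofAdd.surjective l
  apply hl
  apply Subtype.ext
  rw [hA.beta_left t ht]
  have h1 : hA.compo (t ^ l • j) (hA.np t v) = 1 := hcon
  rw [h1]
  show t ^ (-l) * 1 * t ^ l = 1
  group

theorem beta_eq_one (j : I) (v : hA.VT t) (hv : hA.beta t ht j v = 1)
    (hn : (v : W) ∈ ⨆ i, A i) (l : ℤ) :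
    hA.compo (t ^ l • j) (⟨v, hn⟩ : (⨆ i, A i : Subgroup W)) = 1 := by
  have hex : hA.ex t v = 0 := hA.ex_unique t ht v 0 (by simpa using hn)
  have hnp : hA.np t v = ⟨v, hn⟩ := by
    apply Subtype.ext
    show (v : W) * t ^ (-(hA.ex t v)) = v
    rw [hex]; simp
  have h1 := hA.beta_left t ht j v l
  rw [hv, hnp] at h1
  have h2 : (1 : W) = t ^ (-l) * (hA.compo (t ^ l • j) (⟨v, hn⟩ : (⨆ i, A i : Subgroup W)) :
    A (t ^ l • j)) * t ^ l := h1
  apply Subtype.ext
  show _ = (1 : W)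
  calc _ = t ^ l * (t ^ (-l) * ((hA.compo (t ^ l • j) (⟨v, hn⟩ : (⨆ i, A i : Subgroup W)) :
        A (t ^ l • j)) : W) * t ^ l) * t ^ (-l) := by group
    _ = t ^ l * 1 * t ^ (-l) := by rw [← h2]
    _ = 1 := by group

end inf

end Permuted

end Pool.Agent.helper7.Wr
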